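import Pool.Agent.VG.Defs

/-!
# Generic forms over function fields: chain rule and automatic Bertini
-/

namespace Pool.Agent.VG

open MvPolynomial Pool.Agent.Helper11

section chain

variable {F E α τ : Type*} [Field F] [Field E] [Algebra F E] [Fintype τ] {d : α → ℕ}
  (G : α → MvPolynomial τ F) (hG : ∀ a, (G a).IsHomogeneous (d a))

omit [Fintype τ] in
private theorem chain_monoVal_single (x : τ → E) (i : τ) (n : ℕ) :
    monoVal x (Finsupp.single i n) = x i ^ n := by
  unfold monoVal
  exact Finsupp.prod_single_index (h := fun i j => x i ^ j) (pow_zero _)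

omit [Fintype τ] in
private theorem chain_monoVal_add (x : τ → E) (m : τ →₀ ℕ) (i : τ) :
    monoVal x (m + Finsupp.single i 1) = monoVal x m * x i := by
  classical
  have h : monoVal x (m + Finsupp.single i 1) = monoVal x m * monoVal x (Finsupp.single i 1) := by
    unfold monoVal
    exact Finsupp.prod_add_index' (h := fun i j => x i ^ j) (fun _ => pow_zero _)
      (fun _ _ _ => pow_add _ _ _)
  rw [h, chain_monoVal_single, pow_one]

/-- the derivative of the coefficients -/
private noncomputable def chainPhi (D : Derivation ℤ E E) (x : τ → E) (Q : MvPolynomial τ F) : E :=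
  ∑ m ∈ Q.support, D (algebraMap F E (Q.coeff m)) * monoVal x m

omit [Fintype τ] in
private theorem chainPhi_eq (D : Derivation ℤ E E) (x : τ → E) (Q : MvPolynomial τ F)
    (T : Finset (τ →₀ ℕ)) (hT : Q.support ⊆ T) :
    chainPhi D x Q = ∑ m ∈ T, D (algebraMap F E (Q.coeff m)) * monoVal x m := by
  unfold chainPhi
  apply Finset.sum_subset hT
  intro m _ hm
  rw [MvPolynomial.notMem_support_iff.1 hm, map_zero, map_zero, zero_mul]

omit [Fintype τ] in
private theorem chainPhi_add (D : Derivation ℤ E E) (x : τ → E) (P Q : MvPolynomial τ F) :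
    chainPhi D x (P + Q) = chainPhi D x P + chainPhi D x Q := by
  classical
  rw [chainPhi_eq D x (P + Q) (P.support ∪ Q.support) MvPolynomial.support_add,
    chainPhi_eq D x P (P.support ∪ Q.support) Finset.subset_union_left,
    chainPhi_eq D x Q (P.support ∪ Q.support) Finset.subset_union_right, ← Finset.sum_add_distrib]
  refine Finset.sum_congr rfl fun m _ => ?_
  rw [MvPolynomial.coeff_add, map_add, map_add, add_mul]

omit [Fintype τ] in
private theorem chainPhi_monomial (D : Derivation ℤ E E) (x : τ → E) (m : τ →₀ ℕ) (c : F) :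
    chainPhi D x (monomial m c) = D (algebraMap F E c) * monoVal x m := by
  classical
  rw [chainPhi_eq D x (monomial m c) {m} MvPolynomial.support_monomial_subset,
    Finset.sum_singleton, MvPolynomial.coeff_monomial, if_pos rfl]

omit [Fintype τ] in
private theorem chainPhi_mul_X (D : Derivation ℤ E E) (x : τ → E) (Q : MvPolynomial τ F) (i : τ) :
    chainPhi D x (Q * X i) = chainPhi D x Q * x i := by
  induction Q using MvPolynomial.induction_on' with
  | monomial u a =>
    have h : (monomial u a : MvPolynomial τ F) * X i = monomial (u + Finsupp.single i 1) a := by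
      rw [MvPolynomial.X, MvPolynomial.monomial_mul, mul_one]
    rw [h, chainPhi_monomial, chainPhi_monomial, chain_monoVal_add]
    ring
  | add p q hp hq =>
    rw [add_mul, chainPhi_add, hp, hq, chainPhi_add, add_mul]

private theorem chain_general (D : Derivation ℤ E E) (x : τ → E) (Q : MvPolynomial τ F) :
    D (aeval x Q) = chainPhi D x Q + ∑ i, aeval x (pderiv i Q) * D (x i) := by
  classical
  induction Q using MvPolynomial.induction_on with
  | C c =>
    have h : (C c : MvPolynomial τ F) = monomial 0 c := rfl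
    have h1 : chainPhi D x (C c) = D (algebraMap F E c) := by
      rw [h, chainPhi_monomial]
      simp [monoVal]
    rw [h1]
    simp
  | add p q hp hq =>
    rw [map_add, map_add, hp, hq, chainPhi_add]
    simp only [map_add, add_mul, Finset.sum_add_distrib]
    ring
  | mul_X p i hp =>
    rw [chainPhi_mul_X, map_mul, aeval_X, Derivation.leibniz, hp, smul_eq_mul, smul_eq_mul]
    have h : ∀ j, aeval x (pderiv j (p * X i)) * D (x j) =
        aeval x p * ((Pi.single i (1 : E) : τ → E) j * D (x j)) +
          x i * (aeval x (pderiv j p) * D (x j)) := by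
      intro j
      rw [Derivation.leibniz, smul_eq_mul, smul_eq_mul, map_add, map_mul, map_mul, aeval_X]
      have h2 : aeval x (pderiv j (X i : MvPolynomial τ F)) = (Pi.single i (1 : E) : τ → E) j := by
        by_cases hij : j = i
        · subst hij; simp
        · rw [pderiv_X_of_ne (Ne.symm hij), map_zero, Pi.single_eq_of_ne hij]
      rw [h2]
      ring
    simp only [h]
    rw [Finset.sum_add_distrib, ← Finset.mul_sum, ← Finset.mul_sum]
    have h3 : ∑ j, (Pi.single i (1 : E) : τ → E) j * D (x j) = D (x i) := by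
      rw [Finset.sum_eq_single i]
      · simp
      · intro b _ hb
        simp [Pi.single_eq_of_ne hb]
      · intro hh
        exact absurd (Finset.mem_univ _) hh
    rw [h3]
    ring

open Classical in
theorem chain_rule (hG : ∀ a, (G a).IsHomogeneous (d a)) (D : Derivation ℤ E E) (p : CoeffIdx τ d)
    (hD : ∀ a (m : Mono τ (d a)), D (algebraMap F E ((G a).coeff m.1)) =
      if p = ⟨a, m⟩ then 1 else 0) (x : τ → E) (a : α) :
    D (aeval x (G a)) = (if p.1 = a then monoVal x p.2.1 else 0) +
      ∑ i, gradAt (G a) x i * D (x i) := by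
  rw [chain_general]
  congr 1
  have hdeg : ∀ m ∈ (G a).support, m.degree = d a := by
    intro m hm
    have h := hG a (MvPolynomial.mem_support_iff.1 hm)
    rw [← h, Finsupp.degree_eq_weight_one]
    rfl
  have hphi : chainPhi D x (G a) =
      ∑ m ∈ (G a).support, D (algebraMap F E ((G a).coeff m)) * monoVal x m := rfl
  rw [hphi]
  obtain ⟨a', m'⟩ := p
  by_cases haa : a' = a
  · subst haa
    rw [if_pos rfl]
    have hmem : m'.1 ∈ (G a').support := by
      rw [MvPolynomial.mem_support_iff]
      intro h0
      have h1 := hD a' m'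
      rw [h0, if_pos rfl, map_zero, map_zero] at h1
      exact zero_ne_one h1
    rw [Finset.sum_eq_single_of_mem m'.1 hmem]
    · rw [hD a' m', if_pos rfl, one_mul]
    · intro m hm hne
      have h1 := hD a' ⟨m, hdeg m hm⟩
      rw [if_neg] at h1
      · change D (algebraMap F E ((G a').coeff m)) = 0 at h1
        rw [h1, zero_mul]
      · intro h2
        have h3 := eq_of_heq (Sigma.mk.inj_iff.1 h2).2
        exact hne (congrArg Subtype.val h3).symm
  · rw [if_neg haa]
    apply Finset.sum_eq_zero
    intro m hm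
    have h1 := hD a ⟨m, hdeg m hm⟩
    rw [if_neg] at h1
    · change D (algebraMap F E ((G a).coeff m)) = 0 at h1
      rw [h1, zero_mul]
    · intro h2
      exact haa (Sigma.mk.inj_iff.1 h2).1

open Classical in
theorem linearIndependent_grad (hG : ∀ a, (G a).IsHomogeneous (d a))
    (δ : CoeffIdx τ d → Derivation ℤ E E)
    (hδ : ∀ p a (m : Mono τ (d a)), δ p (algebraMap F E ((G a).coeff m.1)) =
      if p = ⟨a, m⟩ then 1 else 0) (x : τ → E) (hx : ∃ i, x i ≠ 0) (S : Set α)
    (hS : ∀ a ∈ S, aeval x (G a) = 0) :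
    LinearIndependent E (fun a : S => gradAt (G a.1) x) := by
  obtain ⟨i, hi⟩ := hx
  have hdeg : ∀ a : α, (Finsupp.single i (d a) : τ →₀ ℕ).degree = d a := fun a => by simp
  -- the dual functionals
  have key : ∀ a' : S, ∀ a : S,
      ∑ j, gradAt (G a.1) x j * δ ⟨a'.1, ⟨Finsupp.single i (d a'.1), hdeg a'.1⟩⟩ (x j) =
        if a' = a then -(x i ^ d a'.1) else 0 := by
    intro a' a
    have h := chain_rule G hG (δ ⟨a'.1, ⟨Finsupp.single i (d a'.1), hdeg a'.1⟩⟩)
      ⟨a'.1, ⟨Finsupp.single i (d a'.1), hdeg a'.1⟩⟩ (fun b m => hδ _ b m) x a.1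
    rw [hS a.1 a.2, map_zero] at h
    by_cases haa : a' = a
    · subst haa
      rw [if_pos rfl] at h ⊢
      have hm : monoVal x (Finsupp.single i (d a'.1)) = x i ^ d a'.1 := chain_monoVal_single x i _
      change 0 = monoVal x (Finsupp.single i (d a'.1)) + _ at h
      rw [hm] at h
      exact eq_neg_of_add_eq_zero_right h.symm
    · rw [if_neg haa]
      rw [if_neg (fun h1 => haa (Subtype.ext h1)), zero_add] at h
      exact h.symm
  rw [linearIndependent_iff']
  intro T g hg a' ha'
  have h1 : ∑ j, (∑ a ∈ T, g a • gradAt (G a.1) x) j *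
      δ ⟨a'.1, ⟨Finsupp.single i (d a'.1), hdeg a'.1⟩⟩ (x j) = 0 := by
    rw [hg]
    simp
  have h2 : ∑ j, (∑ a ∈ T, g a • gradAt (G a.1) x) j *
      δ ⟨a'.1, ⟨Finsupp.single i (d a'.1), hdeg a'.1⟩⟩ (x j) =
      ∑ a ∈ T, g a * ∑ j, gradAt (G a.1) x j *
        δ ⟨a'.1, ⟨Finsupp.single i (d a'.1), hdeg a'.1⟩⟩ (x j) := by
    simp only [Finset.sum_apply, Pi.smul_apply, smul_eq_mul, Finset.sum_mul, Finset.mul_sum]
    rw [Finset.sum_comm]
    refine Finset.sum_congr rfl fun a _ => Finset.sum_congr rfl fun j _ => ?_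
    ring
  rw [h2] at h1
  simp only [key] at h1
  rw [Finset.sum_eq_single_of_mem a' ha'] at h1
  · rw [if_pos rfl] at h1
    rcases mul_eq_zero.1 h1 with h3 | h3
    · exact h3
    · exact absurd (neg_eq_zero.1 h3) (pow_ne_zero _ hi)
  · intro b _ hb
    rw [if_neg (Ne.symm hb), mul_zero]

end chain

end Pool.Agent.VG
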