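import Pool.Agent.Helper11.ExtChi
import Pool.Agent.Helper11.ProjHeight
import Pool.Agent.Helper11.DerExt

/-!
# Generic forms over function fields: definitions

`MP_4dacf8_ag`, Q1 for very general (log) complete intersections.
-/

namespace Pool.Agent.VG

open MvPolynomial Pool.Agent.Helper11

/-- The monomials of degree `d` in the variables `τ`. -/
abbrev Mono (τ : Type*) (d : ℕ) : Type _ := {m : τ →₀ ℕ // m.degree = d}

instance instFiniteMono {τ : Type*} [Finite τ] (d : ℕ) : Finite (Mono τ d) := by
  classical
  have : Fintype τ := Fintype.ofFinite τ
  refine Finite.of_injective (fun m : Mono τ d => fun i : τ => (⟨m.1 i, ?_⟩ : Fin (d + 1))) ?_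
  · have h1 : m.1 i ≤ m.1.degree := Finsupp.le_degree i m.1
    have h2 := m.2
    omega
  · intro m m' h
    apply Subtype.ext
    ext i
    exact congrArg Fin.val (congrFun h i)

noncomputable instance instFintypeMono {τ : Type*} [Finite τ] (d : ℕ) : Fintype (Mono τ d) :=
  Fintype.ofFinite _

/-- The index set of all coefficients of forms of degrees `d a`, `a : α`. -/
abbrev CoeffIdx {α : Type*} (τ : Type*) (d : α → ℕ) : Type _ := (a : α) × Mono τ (d a)

/-- The forms `P a` of degrees `d a` over `k` are jointly generic over `k₀`: all their coefficients
together are algebraically independent over `k₀`. -/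
structure GenericForms (k₀ : Type*) {k α τ : Type*} [Field k₀] [Field k] [Algebra k₀ k]
    (d : α → ℕ) (P : α → MvPolynomial τ k) : Prop where
  homogeneous : ∀ a, (P a).IsHomogeneous (d a)
  independent : AlgebraicIndependent k₀ (fun p : CoeffIdx τ d => (P p.1).coeff p.2.1)

/-- The coefficients of `G`, as elements of the extension field `L`. -/
noncomputable def coeffs {F : Type*} (L : Type*) {τ : Type*} [Field F] [Field L] [Algebra F L]
    (G : MvPolynomial τ F) : G.support → L :=
  fun m => algebraMap F L (G.coeff m)

/-- The places of `L` where the point `f` meets the divisor `{G = 0}` (of degree `d`) of the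
projective space over the base curve: the local equation, with coefficients without common zero,
vanishes at `f`. -/
def Meets {k F L τ : Type*} [Field k] [Field F] [Field L] [Algebra k L] [Algebra F L]
    (v : Place k L) (d : ℕ) (G : MvPolynomial τ F) (f : τ → L) : Prop :=
  v.minOrd (coeffs L G) + d * v.minOrd f < v.ord (aeval f G)

/-- the value at `x` of the monomial `m` -/
noncomputable def monoVal {E τ : Type*} [Field E] (x : τ → E) (m : τ →₀ ℕ) : E :=
  m.prod fun i j => x i ^ j

/-- the gradient of `G` at the point `x` -/
noncomputable def gradAt {F E τ : Type*} [Field F] [Field E] [Algebra F E]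
    (G : MvPolynomial τ F) (x : τ → E) : τ → E := fun i => aeval x (pderiv i G)

end Pool.Agent.VG
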