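import Pool.Agent.VG.Defs

/-! # Derivations dual to generic coefficients -/

set_option linter.unusedSectionVars false

namespace Pool.Agent.VG

open MvPolynomial Pool.Agent.Helper11

theorem der_aeval {K F E : Type*} [Field K] [Field F] [Field E] [Algebra K F] [Algebra F E]
    (Δ : Derivation ℤ F E) (hK : ∀ a : K, Δ (algebraMap K F a) = 0) (f : Polynomial K) (c : F) :
    Δ (Polynomial.aeval c f) =
      algebraMap F E (Polynomial.aeval c (Polynomial.derivative f)) * Δ c := by
  induction f using Polynomial.induction_on' with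
  | add f g hf hg => rw [map_add, map_add, hf, hg, Polynomial.derivative_add, map_add, map_add,
      add_mul]
  | monomial n a =>
    rw [Polynomial.aeval_monomial, Derivation.leibniz, hK, smul_zero, add_zero,
      Derivation.leibniz_pow, Polynomial.derivative_monomial, Polynomial.aeval_monomial,
      nsmul_eq_mul, Algebra.smul_def, Algebra.smul_def]
    simp only [map_mul, map_natCast, map_pow]
    ring

/-- a derivation killing a field kills everything algebraic over it -/
theorem der_algebraic {K F E : Type*} [Field K] [Field F] [Field E] [CharZero K] [Algebra K F]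
    [Algebra F E] (Δ : Derivation ℤ F E) (hK : ∀ a : K, Δ (algebraMap K F a) = 0) {c : F}
    (hc : IsAlgebraic K c) : Δ c = 0 := by
  have hint : IsIntegral K c := hc.isIntegral
  have h1 := der_aeval Δ hK (minpoly K c) c
  rw [minpoly.aeval, map_zero] at h1
  have h2 : Polynomial.aeval c (Polynomial.derivative (minpoly K c)) ≠ 0 :=
    (minpoly.irreducible hint).separable.aeval_derivative_ne_zero (minpoly.aeval K c)
  rcases mul_eq_zero.mp h1.symm with h | h
  · exact absurd ((map_eq_zero (algebraMap F E)).mp h) h2
  · exact h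

/-- a derivation killing `k₀` and `s` kills the field `k₀(s)` -/
theorem der_adjoin {k₀ F E : Type*} [Field k₀] [Field F] [Field E] [Algebra k₀ F] [Algebra F E]
    (Δ : Derivation ℤ F E) (s : F) (hk : ∀ a : k₀, Δ (algebraMap k₀ F a) = 0) (hs : Δ s = 0)
    (a : IntermediateField.adjoin k₀ {s}) : Δ (a : F) = 0 := by
  refine IntermediateField.adjoin_induction (F := k₀) (s := {s})
    (p := fun x _ => Δ x = 0) ?_ ?_ ?_ ?_ ?_ a.2
  · rintro x hx
    rw [Set.mem_singleton_iff.mp hx]
    exact hs
  · exact hk
  · intro x y _ _ hx hy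
    rw [map_add, hx, hy, add_zero]
  · intro x _ hx
    rw [Derivation.leibniz_inv, hx, smul_zero]
  · intro x y _ _ hx hy
    rw [Derivation.leibniz, hx, hy, smul_zero, smul_zero, add_zero]

/-- coefficientwise extension of a derivation of `k` to an extension `E`, killing a transcendental
element -/
theorem der_extend {k₀ k E : Type*} [Field k₀] [Field k] [Field E] [CharZero k] [Algebra k₀ k]
    [Algebra k E] (D : Derivation k₀ k k) (s : E) (hs : Transcendental k s) :
    ∃ Δ : Derivation ℤ E E, (∀ c : k, Δ (algebraMap k E c) = algebraMap k E (D c)) ∧ Δ s = 0 := by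
  let _ : Algebra k₀ E := ((algebraMap k E).comp (algebraMap k₀ k)).toAlgebra
  let _ : Algebra (Polynomial k) E := (Polynomial.aeval (R := k) s).toRingHom.toAlgebra
  have halg : ∀ P : Polynomial k, algebraMap (Polynomial k) E P = Polynomial.aeval s P :=
    fun P => rfl
  have hst : IsScalarTower k₀ (Polynomial k) E := by
    refine IsScalarTower.of_algebraMap_eq fun c => ?_
    rw [halg]
    have : algebraMap k₀ (Polynomial k) c = Polynomial.C (algebraMap k₀ k c) := rfl
    rw [this, Polynomial.aeval_C]
    rfl
  have hf : FaithfulSMul (Polynomial k) E := by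
    rw [faithfulSMul_iff_algebraMap_injective]
    exact transcendental_iff_injective.mp hs
  let dX : Derivation k₀ (Polynomial k) (Polynomial k) :=
    (PolynomialModule.equivPolynomialSelf (R := k)).compDer D.mapCoeffs
  have hX : dX Polynomial.X = 0 := by simp [dX]
  have hC : ∀ c, dX (Polynomial.C c) = Polynomial.C (D c) := by
    intro c
    simp [dX]
  obtain ⟨Δ, hΔ⟩ := exists_derivation_extend
    ((Algebra.linearMap (Polynomial k) E).compDer dX)
  refine ⟨Δ.restrictScalars ℤ, fun c => ?_, ?_⟩
  · have h1 := hΔ (Polynomial.C c)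
    rw [halg, Polynomial.aeval_C] at h1
    rw [Derivation.restrictScalars_apply, h1]
    change algebraMap (Polynomial k) E (dX (Polynomial.C c)) = _
    rw [hC, halg, Polynomial.aeval_C]
  · have h1 := hΔ Polynomial.X
    rw [halg, Polynomial.aeval_X] at h1
    rw [Derivation.restrictScalars_apply, h1]
    change algebraMap (Polynomial k) E (dX Polynomial.X) = _
    rw [hX, map_zero]

/-- derivations dual to algebraically independent elements -/
theorem der_dual {k₀ k ι : Type*} [Field k₀] [Field k] [CharZero k] [Algebra k₀ k] {x : ι → k}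
    (hx : AlgebraicIndependent k₀ x) (p : ι) :
    ∃ D : Derivation k₀ k k, D (x p) = 1 ∧ ∀ q, q ≠ p → D (x q) = 0 := by
  have hk₀ : CharZero k₀ := (algebraMap k₀ k).charZero
  let _ : Algebra (MvPolynomial ι k₀) k := (MvPolynomial.aeval (R := k₀) x).toRingHom.toAlgebra
  have halg : ∀ P : MvPolynomial ι k₀, algebraMap (MvPolynomial ι k₀) k P = aeval x P :=
    fun P => rfl
  have hst : IsScalarTower k₀ (MvPolynomial ι k₀) k := by
    refine IsScalarTower.of_algebraMap_eq fun c => ?_
    rw [halg]
    have : algebraMap k₀ (MvPolynomial ι k₀) c = MvPolynomial.C c := rfl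
    rw [this, MvPolynomial.aeval_C]
  have hf : FaithfulSMul (MvPolynomial ι k₀) k := by
    rw [faithfulSMul_iff_algebraMap_injective]
    exact hx
  obtain ⟨D, hD⟩ := exists_derivation_extend
    ((Algebra.linearMap (MvPolynomial ι k₀) k).compDer (MvPolynomial.pderiv (R := k₀) p))
  have h1 : ∀ q, D (x q) = algebraMap (MvPolynomial ι k₀) k (MvPolynomial.pderiv p (X q)) := by
    intro q
    have h2 := hD (X q)
    rw [halg, MvPolynomial.aeval_X] at h2
    rw [h2]
    rfl
  refine ⟨D, ?_, fun q hq => ?_⟩
  · rw [h1, MvPolynomial.pderiv_X_self, map_one]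
  · rw [h1, MvPolynomial.pderiv_X_of_ne hq, map_zero]

open Classical in
theorem exists_derivations {k₀ k F E α τ : Type*} [Field k₀] [Field k] [Field F] [Field E]
    [CharZero k] [Algebra k₀ k] [Algebra k F] [Algebra k₀ F] [IsScalarTower k₀ k F] [Algebra k E]
    [Algebra F E] [IsScalarTower k F E] {d : α → ℕ} {P : α → MvPolynomial τ k}
    (hP : GenericForms k₀ d P) (s : F) (hs : Transcendental k s) :
    ∃ δ : CoeffIdx τ d → Derivation ℤ E E,
      (∀ p q, δ p (algebraMap k E ((P q.1).coeff q.2.1)) = if p = q then 1 else 0) ∧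
      (∀ p (c : k), ∃ c' : k, δ p (algebraMap k E c) = algebraMap k E c') ∧
      (∀ p, δ p (algebraMap F E s) = 0) ∧
      (∀ p (c : F), IsAlgebraic (IntermediateField.adjoin k₀ {s}) c →
        δ p (algebraMap F E c) = 0) := by
  have hsE : Transcendental k (algebraMap F E s) :=
    (transcendental_algebraMap_iff (algebraMap F E).injective).mpr hs
  choose D hD1 hD2 using fun p => der_dual hP.independent p
  choose δ hδ1 hδ2 using fun p => der_extend (D p) (algebraMap F E s) hsE
  refine ⟨δ, fun p q => ?_, fun p c => ⟨D p c, hδ1 p c⟩, hδ2, fun p c hc => ?_⟩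
  · rw [hδ1]
    by_cases h : p = q
    · subst h
      rw [if_pos rfl]
      have := hD1 p
      rw [this, map_one]
    · rw [if_neg h]
      have := hD2 p q (fun h' => h h'.symm)
      rw [this, map_zero]
  · have hk₀ : CharZero k₀ := (algebraMap k₀ k).charZero
    let Δ : Derivation ℤ F E := (δ p).compAlgebraMap F
    have hΔ : ∀ y : F, Δ y = δ p (algebraMap F E y) := fun y => rfl
    have h0 : ∀ a : k₀, Δ (algebraMap k₀ F a) = 0 := by
      intro a
      rw [hΔ, IsScalarTower.algebraMap_apply k₀ k F, ← IsScalarTower.algebraMap_apply k F E,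
        hδ1, Derivation.map_algebraMap, map_zero]
    have hs0 : Δ s = 0 := hδ2 p
    have hcz : CharZero (IntermediateField.adjoin k₀ {s}) :=
      charZero_of_injective_algebraMap (algebraMap k₀ (IntermediateField.adjoin k₀ {s})).injective
    exact der_algebraic (K := IntermediateField.adjoin k₀ {s}) Δ
      (fun a => der_adjoin Δ s h0 hs0 a) hc

end Pool.Agent.VG
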