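import Pool.Agent.VG.FrameB

/-!
# The frame of logarithmic vector fields

`MP_4dacf8_ag`, Q1 for very general (log) complete intersections.
-/

set_option linter.unusedSectionVars false

namespace Pool.Agent.VG

open MvPolynomial Pool.Agent.Helper11

section bounds

variable {k F L A₁ A₂ τ : Type*} [Field k] [Field F] [Field L] [Algebra k F]
    [Algebra k L] [Algebra F L] [IsScalarTower k F L]
    [Fintype A₁] [Fintype A₂] [Fintype τ] {d : A₁ ⊕ A₂ → ℕ}
    (G : A₁ ⊕ A₂ → MvPolynomial τ F) (hd : ∀ a, 1 ≤ d a)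

theorem coeff_X_mul_pderiv_mem (v : Place k L) {B : ℤ} (Q : MvPolynomial τ F)
    (hQ : ∀ m, algebraMap F L (Q.coeff m) ∈ v.ge (-B)) (i r : τ) (m : τ →₀ ℕ) :
    algebraMap F L ((X i * pderiv r Q).coeff m) ∈ v.ge (-B) := by
  classical
  rw [coeff_X_mul']
  split_ifs with h
  · rw [coeff_pderiv, map_mul, map_add, map_natCast, map_one, mul_comm]
    have h1 : ((((m - Finsupp.single i 1 : τ →₀ ℕ) r : ℕ) : L) + 1) ∈ v.ge 0 :=
      add_mem (v.natCast_mem_ge _) v.one_mem_ge
    have h2 := v.mul_mem_ge h1 (hQ (m - Finsupp.single i 1 + Finsupp.single r 1))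
    rwa [zero_add] at h2
  · rw [map_zero]
    exact zero_mem _

/-- the coefficients of the vector fields have bounded poles -/
theorem vc_mem (v : Place k L) {B ν : ℤ} (hB : 0 ≤ B) (hν : ν ≤ 0)
    (hG : ∀ a m, algebraMap F L ((G a).coeff m) ∈ v.ge (-B)) {f : τ → L}
    (hf : ∀ i, f i ∈ v.ge ν) (l : VIdx A₂ τ d) (p : CoeffIdx τ d) :
    vc G hd f l p ∈ v.ge (ν - B) := by
  classical
  rcases l with ⟨a, p', q, J⟩ | ⟨r, i⟩ | b
  · change (Pi.single (mulX hd a J q) (f p') : CoeffIdx τ d → L) p -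
      (Pi.single (mulX hd a J p') (f q) : CoeffIdx τ d → L) p ∈ _
    have h1 : ∀ (m : CoeffIdx τ d) (j : τ), (Pi.single m (f j) : CoeffIdx τ d → L) p ∈
        v.ge (ν - B) := by
      intro m j
      rw [Pi.single_apply]
      split_ifs
      · exact v.ge_anti (by omega) (hf j)
      · exact zero_mem _
    exact sub_mem (by convert! h1 _ _) (by convert! h1 _ _)
  · change algebraMap F L ((X i * pderiv r (G p.1)).coeff p.2.1) ∈ _
    exact v.ge_anti (by omega) (coeff_X_mul_pderiv_mem v (G p.1) (hG p.1) i r p.2.1)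
  · change (if p.1 = Sum.inr b then algebraMap F L ((G p.1).coeff p.2.1) else (0 : L)) ∈ _
    split_ifs
    · exact v.ge_anti (by omega) (hG _ _)
    · exact zero_mem _

theorem vw_mem (v : Place k L) {B ν : ℤ} (hB : 0 ≤ B) (hν : ν ≤ 0) {f : τ → L}
    (hf : ∀ i, f i ∈ v.ge ν) (l : VIdx A₂ τ d) (i : τ) :
    (vw f l i : L) ∈ v.ge (ν + (ν - B)) := by
  classical
  rcases l with ⟨a, p', q, J⟩ | ⟨r, j⟩ | b
  · exact zero_mem _
  · change (Pi.single r (f j) : τ → L) i ∈ _
    have h1 : (Pi.single r (f j) : τ → L) i ∈ v.ge (ν + (ν - B)) := by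
      rw [Pi.single_apply]
      split_ifs
      · exact v.ge_anti (by omega) (hf j)
      · exact zero_mem _
    convert! h1
  · exact zero_mem _

theorem ve_mem (v : Place k L) {B ν : ℤ} (hB : 0 ≤ B) (hν : ν ≤ 0)
    (l : VIdx A₂ τ d) (b : A₂) : (ve L l b : L) ∈ v.ge (ν - B) := by
  classical
  rcases l with ⟨a, p', q, J⟩ | ⟨r, j⟩ | b'
  · exact zero_mem _
  · exact zero_mem _
  · have h1 : (Pi.single b' (-1) : A₂ → L) b ∈ v.ge (ν - B) := by
      rw [Pi.single_apply]
      split_ifs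
      · exact v.ge_anti (by omega) (neg_mem v.one_mem_ge)
      · exact zero_mem _
    convert! h1

end bounds

section select

variable {L V : Type*} [Field L] [AddCommGroup V] [Module L V] [FiniteDimensional L V]

/-- selecting independent vectors, one of them prescribed -/
theorem exists_select {Λ : Type*} [Finite Λ] (x : V) (hx : x ≠ 0) (v : Λ → V) {n : ℕ}
    (h : n + 1 ≤ Module.finrank L (Submodule.span L (Set.range v))) :
    ∃ lam : Fin n → Λ, LinearIndependent L (Fin.cons x (fun j => v (lam j)) : Fin (n + 1) → V) := by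
  classical
  have : Fintype Λ := Fintype.ofFinite Λ
  let U : Option Λ → V := fun o => o.elim x v
  have hs : LinearIndepOn L U {none} := by
    rw [linearIndepOn_singleton_iff]
    exact hx
  obtain ⟨b, _, hsb, hspan, hli⟩ := exists_linearIndepOn_extension hs (Set.subset_univ _)
  have hnb : none ∈ b := hsb rfl
  have h1 : Submodule.span L (Set.range v) ≤ Submodule.span L (U '' b) := by
    rw [Submodule.span_le]
    refine subset_trans ?_ hspan
    rintro _ ⟨l, rfl⟩
    exact ⟨some l, trivial, rfl⟩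
  have h2 := h.trans (Submodule.finrank_mono h1)
  have h3 : Module.finrank L (Submodule.span L (U '' b)) = b.toFinset.card := by
    have h4 := finrank_span_eq_card hli
    rw [Set.image_eq_range, Set.toFinset_card]
    exact h4
  rw [h3] at h2
  have h4 : n ≤ (b.toFinset.erase none).card := by
    rw [Finset.card_erase_of_mem (by simpa using hnb)]
    omega
  obtain ⟨S, hS, hScard⟩ := Finset.exists_subset_card_eq h4
  let ρ : Fin n ≃ S := (S.equivFinOfCardEq hScard).symm
  have h5 : ∀ j, ∃ l : Λ, some l = (ρ j : Option Λ) := by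
    intro j
    have h6 := hS (ρ j).2
    rw [Finset.mem_erase] at h6
    exact Option.ne_none_iff_exists.1 h6.1
  choose lam hlam using h5
  have h6 : ∀ j, (ρ j : Option Λ) ∈ b := by
    intro j
    have h7 := hS (ρ j).2
    rw [Finset.mem_erase] at h7
    simpa using h7.2
  refine ⟨lam, ?_⟩
  let g : Fin (n + 1) → b := Fin.cons ⟨none, hnb⟩ (fun j => ⟨(ρ j : Option Λ), h6 j⟩)
  have hg : Function.Injective g := by
    rw [Fin.cons_injective_iff]
    constructor
    · rintro ⟨j, hj⟩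
      have h7 := congrArg Subtype.val hj
      change (ρ j : Option Λ) = none at h7
      rw [← hlam j] at h7
      exact absurd h7 (by simp)
    · intro i j hij
      have h7 := congrArg Subtype.val hij
      exact ρ.injective (Subtype.ext h7)
  have h7 := hli.comp g hg
  convert! h7 using 1
  funext j
  refine Fin.cases ?_ (fun j => ?_) j
  · rfl
  · change v (lam j) = U (ρ j : Option Λ)
    rw [← hlam j]
    rfl

end select

section main

variable {F L A₁ A₂ τ : Type*} [Field F] [Field L] [Algebra F L] [Fintype A₁] [Fintype A₂]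
  [Fintype τ] {d : A₁ ⊕ A₂ → ℕ} (G : A₁ ⊕ A₂ → MvPolynomial τ F) (hd : ∀ a, 1 ≤ d a)
  (δ : CoeffIdx τ d → Derivation ℤ L L)

open Classical in
theorem finrank_vv (hG : ∀ a, (G a).IsHomogeneous (d a)) {n : ℕ} (e : A₁ ⊕ Fin (n + 1) ≃ τ)
    (f : τ → L) (hf : ∃ i, f i ≠ 0) (h2 : ∀ b, aeval f (G (Sum.inr b)) ≠ 0) :
    n + 1 ≤ Module.finrank L (Submodule.span L (Set.range (vv G hd δ f))) := by
  set W := Submodule.span L (Set.range (vv G hd δ f)) with hW
  have h3 := Subspace.finrank_add_finrank_dualAnnihilator_eq W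
  rw [Module.finrank_pi] at h3
  have h4 : Fintype.card τ = Fintype.card A₁ + (n + 1) := by
    rw [← Fintype.card_congr e, Fintype.card_sum, Fintype.card_fin]
  let T : Module.Dual L (τ → L) →ₗ[L] (τ → L) :=
    { toFun := fun ϕ i => ϕ (Pi.single i 1)
      map_add' := fun ϕ ψ => rfl
      map_smul' := fun c ϕ => rfl }
  have hT : ∀ (ϕ : Module.Dual L (τ → L)) (x : τ → L), ϕ x = ∑ i, T ϕ i * x i := by
    intro ϕ x
    conv_lhs => rw [pi_eq_sum_univ' x]
    rw [map_sum]
    refine Finset.sum_congr rfl fun i _ => ?_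
    rw [map_smul, smul_eq_mul, mul_comm]
    rfl
  have hTinj : Function.Injective T := by
    intro ϕ ψ h
    apply LinearMap.ext
    intro x
    rw [hT, hT, h]
  set N₀ := Submodule.span L (Set.range fun a : A₁ => gradAt (G (Sum.inl a)) f) with hN₀
  have h5 : ∀ ϕ ∈ W.dualAnnihilator, T ϕ ∈ N₀ := by
    intro ϕ hϕ
    rw [Submodule.mem_dualAnnihilator] at hϕ
    obtain ⟨ψ, hψ⟩ := span_lemma G hd δ hG f hf h2 (T ϕ) (fun l => by
      rw [← hT]
      exact hϕ _ (Submodule.subset_span ⟨l, rfl⟩))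
    have h6 : T ϕ = ∑ a, ψ a • gradAt (G (Sum.inl a)) f := by
      funext r
      rw [hψ r, Finset.sum_apply]
      rfl
    rw [h6]
    exact Submodule.sum_mem _ fun a _ => Submodule.smul_mem _ _ (Submodule.subset_span ⟨a, rfl⟩)
  have h6 : Module.finrank L W.dualAnnihilator ≤ Module.finrank L N₀ := by
    let T' : W.dualAnnihilator →ₗ[L] N₀ :=
      (T.domRestrict W.dualAnnihilator).codRestrict N₀ (fun ϕ => h5 ϕ.1 ϕ.2)
    refine LinearMap.finrank_le_finrank_of_injective (f := T') ?_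
    intro x y hxy
    apply Subtype.ext
    apply hTinj
    exact congrArg Subtype.val hxy
  have h7 : Module.finrank L N₀ ≤ Fintype.card A₁ := finrank_range_le_card _
  omega

end main

open Classical in
/-- the frame of logarithmic vector fields at the point `f` -/
theorem exists_frame {k F L A₁ A₂ τ : Type*} [Field k] [Field F] [Field L] [Algebra k F]
    [Algebra k L] [Algebra F L] [IsScalarTower k F L] [CharZero k]
    [Fintype A₁] [Fintype A₂] [Fintype τ] {d : A₁ ⊕ A₂ → ℕ}
    (G : A₁ ⊕ A₂ → MvPolynomial τ F) (hG : ∀ a, (G a).IsHomogeneous (d a))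
    (hd : ∀ a, 1 ≤ d a) {n : ℕ} (e : A₁ ⊕ Fin (n + 1) ≃ τ)
    (δ : CoeffIdx τ d → Derivation ℤ L L)
    (hδ : ∀ p a (m : Mono τ (d a)), δ p (algebraMap F L ((G a).coeff m.1)) =
      if p = ⟨a, m⟩ then 1 else 0)
    (f : τ → L) (hf : ∃ i, f i ≠ 0) (h1 : ∀ a, aeval f (G (Sum.inl a)) = 0)
    (h2 : ∀ b, aeval f (G (Sum.inr b)) ≠ 0) :
    ∃ (c : Fin n → CoeffIdx τ d → L) (w : Fin n → τ → L) (ε : Fin n → A₂ → L),
      (∀ l a, ∑ i, gradAt (G (Sum.inl a)) f i * (w l i + ∑ p, c l p * δ p (f i)) = 0) ∧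
      (∀ l b, ∑ i, gradAt (G (Sum.inr b)) f i * (w l i + ∑ p, c l p * δ p (f i)) =
        ∑ p, c l p * δ p (aeval f (G (Sum.inr b))) + ε l b * aeval f (G (Sum.inr b))) ∧
      LinearIndependent L (Fin.cons f (fun l i => w l i + ∑ p, c l p * δ p (f i)) :
        Fin (n + 1) → τ → L) ∧
      (∀ (v : Place k L) (B ν : ℤ), 0 ≤ B → ν ≤ 0 →
        (∀ a m, algebraMap F L ((G a).coeff m) ∈ v.ge (-B)) → (∀ i, f i ∈ v.ge ν) →
        (∀ l p, c l p ∈ v.ge (ν - B)) ∧ (∀ l i, w l i ∈ v.ge (ν + (ν - B))) ∧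
        (∀ l b, ε l b ∈ v.ge (ν - B))) := by
  have hf0 : f ≠ 0 := by
    rintro rfl
    obtain ⟨i, hi⟩ := hf
    exact hi rfl
  obtain ⟨lam, hlam⟩ := exists_select f hf0 (vv G hd δ f) (finrank_vv G hd δ hG e f hf h2)
  refine ⟨fun l => vc G hd f (lam l), fun l => vw f (lam l), fun l => ve L (lam l), ?_, ?_, hlam,
    ?_⟩
  · intro l a
    have h3 := grad_vv G hd δ hG hδ f (lam l) (Sum.inl a)
    rw [h1 a] at h3
    simp only [map_zero, mul_zero, Finset.sum_const_zero, add_zero] at h3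
    exact h3
  · intro l b
    exact grad_vv G hd δ hG hδ f (lam l) (Sum.inr b)
  · intro v B ν hB hν hGB hfν
    exact ⟨fun l p => vc_mem G hd v hB hν hGB hfν _ p, fun l i => vw_mem v hB hν hfν _ i,
      fun l b => ve_mem v hB hν _ b⟩

end Pool.Agent.VG
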