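import Pool.Agent.VG.Defs

/-!
# Logarithmic vector fields at a point

`MP_4dacf8_ag`, Q1 for very general (log) complete intersections.
-/

set_option linter.unusedSectionVars false

namespace Pool.Agent.VG

open MvPolynomial Pool.Agent.Helper11

open Classical in
/-- the value of a form, as a sum over the monomials of its degree -/
theorem aeval_eq_sum_mono {F E τ : Type*} [Field F] [Field E] [Algebra F E] [Finite τ] {d : ℕ}
    {Q : MvPolynomial τ F} (hQ : Q.IsHomogeneous d) (x : τ → E) :
    aeval x Q = ∑ m : Mono τ d, algebraMap F E (Q.coeff m.1) * monoVal x m.1 := by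
  rw [aeval_def, eval₂_eq]
  have h1 : ∀ m ∈ Q.support, m.degree = d := by
    intro m hm
    have h2 := hQ (mem_support_iff.1 hm)
    rw [← h2, Finsupp.degree_eq_weight_one]
    rfl
  have h3 : ∑ m : Mono τ d, algebraMap F E (Q.coeff m.1) * monoVal x m.1 =
      ∑ m ∈ (Finset.univ : Finset (Mono τ d)).map ⟨Subtype.val, Subtype.val_injective⟩,
        algebraMap F E (Q.coeff m) * monoVal x m := by
    rw [Finset.sum_map]
    rfl
  rw [h3]
  refine Finset.sum_subset_zero_on_sdiff ?_ ?_ ?_
  · intro m hm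
    rw [Finset.mem_map]
    exact ⟨⟨m, h1 m hm⟩, Finset.mem_univ _, rfl⟩
  · intro m hm
    rw [Finset.mem_sdiff] at hm
    rw [notMem_support_iff.1 hm.2, map_zero, zero_mul]
  · intro m _
    rfl

theorem monoVal_add {E τ : Type*} [Field E] (x : τ → E) (m m' : τ →₀ ℕ) :
    monoVal x (m + m') = monoVal x m * monoVal x m' := by
  classical
  unfold monoVal
  rw [Finsupp.prod_add_index']
  · intro i; rw [pow_zero]
  · intro i a b; rw [pow_add]

theorem monoVal_single {E τ : Type*} [Field E] (x : τ → E) (i : τ) (j : ℕ) :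
    monoVal x (Finsupp.single i j) = x i ^ j := by
  unfold monoVal
  rw [Finsupp.prod_single_index (h := fun i j => x i ^ j) (pow_zero _)]

section fields

variable {F L A₁ A₂ τ : Type*} [Field F] [Field L] [Algebra F L] [Fintype A₁] [Fintype A₂]
  [Fintype τ] {d : A₁ ⊕ A₂ → ℕ} (G : A₁ ⊕ A₂ → MvPolynomial τ F) (hd : ∀ a, 1 ≤ d a)

/-- the index set of the vector fields -/
abbrev VIdx (A₂ : Type*) (τ : Type*) {A₁ : Type*} (d : A₁ ⊕ A₂ → ℕ) : Type _ :=
  ((a : A₁ ⊕ A₂) × (τ × τ × Mono τ (d a - 1))) ⊕ ((τ × τ) ⊕ A₂)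

/-- the monomial `x_i J` -/
noncomputable def mulX (hd : ∀ a, 1 ≤ d a) (a : A₁ ⊕ A₂) (J : Mono τ (d a - 1)) (i : τ) :
    CoeffIdx τ d :=
  ⟨a, ⟨J.1 + Finsupp.single i 1, by
    have h1 := J.2
    have h2 := hd a
    rw [map_add, Finsupp.degree_single, h1]
    omega⟩⟩

open Classical in
/-- the coefficients of the vector fields -/
noncomputable def vc (f : τ → L) : VIdx A₂ τ d → CoeffIdx τ d → L
  | Sum.inl ⟨a, p, q, J⟩ => Pi.single (mulX hd a J q) (f p) - Pi.single (mulX hd a J p) (f q)
  | Sum.inr (Sum.inl (r, i)) => fun m => algebraMap F L ((X i * pderiv r (G m.1)).coeff m.2.1)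
  | Sum.inr (Sum.inr b) => fun m => if m.1 = Sum.inr b then algebraMap F L ((G m.1).coeff m.2.1)
      else 0

open Classical in
/-- the linear parts of the vector fields -/
noncomputable def vw (f : τ → L) : VIdx A₂ τ d → τ → L
  | Sum.inl _ => 0
  | Sum.inr (Sum.inl (r, i)) => Pi.single r (f i)
  | Sum.inr (Sum.inr _) => 0

open Classical in
/-- the defects of the vector fields -/
noncomputable def ve (L : Type*) [Field L] : VIdx A₂ τ d → A₂ → L
  | Sum.inl _ => 0
  | Sum.inr (Sum.inl _) => 0
  | Sum.inr (Sum.inr b) => Pi.single b (-1)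

theorem sum_pi_single_mul {ι : Type*} [Fintype ι] [DecidableEq ι] {L : Type*} [Field L] (i : ι) (a : L)
    (g : ι → L) : ∑ p, (Pi.single i a : ι → L) p * g p = a * g i := by
  rw [Finset.sum_eq_single i]
  · rw [Pi.single_eq_same]
  · intro j _ hj
    rw [Pi.single_eq_of_ne hj, zero_mul]
  · intro h
    exact absurd (Finset.mem_univ _) h

theorem sum_coeffIdx {α τ : Type*} [Fintype α] [DecidableEq α] [Fintype τ] {d : α → ℕ} {L : Type*} [Field L]
    (a : α) (g : CoeffIdx τ d → L) :
    ∑ p : CoeffIdx τ d, (if p.1 = a then g p else 0) = ∑ m : Mono τ (d a), g ⟨a, m⟩ := by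
  rw [Fintype.sum_sigma, Finset.sum_eq_single a]
  · simp
  · intro b _ hb
    simp [hb]
  · intro h
    exact absurd (Finset.mem_univ _) h

open Classical in
/-- the defect identity -/
theorem defect (hG : ∀ a, (G a).IsHomogeneous (d a)) (f : τ → L) (l : VIdx A₂ τ d)
    (a : A₁ ⊕ A₂) :
    ∑ i, gradAt (G a) f i * vw (d := d) f l i -
      ∑ p : CoeffIdx τ d, (if p.1 = a then vc G hd f l p * monoVal f p.2.1 else 0) =
      Sum.elim (fun _ => (0 : L)) (fun b => ve L l b) a * aeval f (G a) := by
  rcases l with ⟨a', p, q, J⟩ | ⟨r, i⟩ | b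
  · have h1 : ∀ i : τ, (vw (d := d) f (Sum.inl ⟨a', p, q, J⟩) i : L) = 0 := fun i => rfl
    have h2 : Sum.elim (fun _ => (0 : L)) (fun b => ve L (Sum.inl ⟨a', p, q, J⟩ : VIdx A₂ τ d) b) a
        = 0 := by
      rcases a with a | a <;> rfl
    rw [h2, zero_mul]
    simp only [h1, mul_zero, Finset.sum_const_zero, zero_sub, neg_eq_zero]
    have h3 : ∀ m : CoeffIdx τ d, (if m.1 = a then vc G hd f (Sum.inl ⟨a', p, q, J⟩) m *
        monoVal f m.2.1 else 0) =
        (Pi.single (mulX hd a' J q) (f p) : CoeffIdx τ d → L) m *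
          (if m.1 = a then monoVal f m.2.1 else 0) -
        (Pi.single (mulX hd a' J p) (f q) : CoeffIdx τ d → L) m *
          (if m.1 = a then monoVal f m.2.1 else 0) := by
      intro m
      split_ifs
      · change ((Pi.single (mulX hd a' J q) (f p) : CoeffIdx τ d → L) m -
          (Pi.single (mulX hd a' J p) (f q) : CoeffIdx τ d → L) m) * _ = _
        ring
      · ring
    rw [Finset.sum_congr rfl fun m _ => h3 m, Finset.sum_sub_distrib, sum_pi_single_mul,
      sum_pi_single_mul]
    change f p * (if a' = a then monoVal f (J.1 + Finsupp.single q 1) else 0) -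
      f q * (if a' = a then monoVal f (J.1 + Finsupp.single p 1) else 0) = 0
    split_ifs
    · rw [monoVal_add, monoVal_add, monoVal_single, monoVal_single]
      ring
    · ring
  · have h2 : Sum.elim (fun _ => (0 : L)) (fun b => ve L (Sum.inr (Sum.inl (r, i)) : VIdx A₂ τ d) b) a
        = 0 := by
      rcases a with a | a <;> rfl
    rw [h2, zero_mul, sub_eq_zero]
    have h3 : ∑ j, gradAt (G a) f j * vw (d := d) f (Sum.inr (Sum.inl (r, i))) j =
        f i * gradAt (G a) f r := by
      rw [← sum_pi_single_mul r (f i) (gradAt (G a) f)]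
      exact Finset.sum_congr rfl fun j _ => mul_comm _ _
    rw [h3, sum_coeffIdx a (fun p => vc G hd f (Sum.inr (Sum.inl (r, i))) p * monoVal f p.2.1)]
    have h4 : (X i * pderiv r (G a)).IsHomogeneous (d a) := by
      have h5 := (isHomogeneous_X F i).mul ((hG a).pderiv (i := r))
      have h6 : 1 + (d a - 1) = d a := by have := hd a; omega
      rwa [h6] at h5
    have h7 := aeval_eq_sum_mono h4 f
    rw [map_mul, aeval_X] at h7
    exact h7
  · have h1 : ∀ i : τ, (vw (d := d) f (Sum.inr (Sum.inr b)) i : L) = 0 := fun i => rfl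
    simp only [h1, mul_zero, Finset.sum_const_zero, zero_sub]
    rw [sum_coeffIdx a (fun p => vc G hd f (Sum.inr (Sum.inr b)) p * monoVal f p.2.1)]
    rcases a with a | a
    · rw [Sum.elim_inl, zero_mul, neg_eq_zero]
      refine Finset.sum_eq_zero fun m _ => ?_
      have : vc G hd f (Sum.inr (Sum.inr b)) ⟨Sum.inl a, m⟩ = 0 := by simp [vc]
      rw [this, zero_mul]
    · rw [Sum.elim_inr]
      change _ = (Pi.single b (-1) : A₂ → L) a * _
      by_cases hab : a = b
      · subst hab
        rw [Pi.single_eq_same, neg_one_mul, neg_inj, aeval_eq_sum_mono (hG (Sum.inr a)) f]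
        refine Finset.sum_congr rfl fun m _ => ?_
        have : vc G hd f (Sum.inr (Sum.inr a)) ⟨Sum.inr a, m⟩ =
            algebraMap F L ((G (Sum.inr a)).coeff m.1) := by simp [vc]
        rw [this]
      · rw [Pi.single_eq_of_ne hab, zero_mul, neg_eq_zero]
        refine Finset.sum_eq_zero fun m _ => ?_
        have : vc G hd f (Sum.inr (Sum.inr b)) ⟨Sum.inr a, m⟩ = 0 := by simp [vc, hab]
        rw [this, zero_mul]

end fields

end Pool.Agent.VG
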