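import Pool.Agent.VG.FrameA
import Pool.Agent.VG.Chain

/-!
# The logarithmic vector fields span the tangent space

`MP_4dacf8_ag`, Q1 for very general (log) complete intersections.
-/

set_option linter.unusedSectionVars false

namespace Pool.Agent.VG

open MvPolynomial Pool.Agent.Helper11

variable {F L A₁ A₂ τ : Type*} [Field F] [Field L] [Algebra F L] [Fintype A₁] [Fintype A₂]
  [Fintype τ] {d : A₁ ⊕ A₂ → ℕ} (G : A₁ ⊕ A₂ → MvPolynomial τ F) (hd : ∀ a, 1 ≤ d a)
  (δ : CoeffIdx τ d → Derivation ℤ L L)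

/-- the vector fields at the point `f` -/
noncomputable def vv (f : τ → L) (l : VIdx A₂ τ d) (i : τ) : L :=
  vw f l i + ∑ p, vc G hd f l p * δ p (f i)

open Classical in
/-- the values of the gradients on the vector fields -/
theorem grad_vv (hG : ∀ a, (G a).IsHomogeneous (d a))
    (hδ : ∀ p a (m : Mono τ (d a)), δ p (algebraMap F L ((G a).coeff m.1)) =
      if p = ⟨a, m⟩ then 1 else 0)
    (f : τ → L) (l : VIdx A₂ τ d) (a : A₁ ⊕ A₂) :
    ∑ i, gradAt (G a) f i * vv G hd δ f l i = ∑ p, vc G hd f l p * δ p (aeval f (G a)) +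
      Sum.elim (fun _ => (0 : L)) (fun b => ve L l b) a * aeval f (G a) := by
  rw [← defect G hd hG f l a]
  have h1 : ∀ p : CoeffIdx τ d, vc G hd f l p * δ p (aeval f (G a)) =
      (if p.1 = a then vc G hd f l p * monoVal f p.2.1 else 0) +
        ∑ i, gradAt (G a) f i * (vc G hd f l p * δ p (f i)) := by
    intro p
    rw [chain_rule G hG (δ p) p (fun a m => (hδ p a m).trans (by congr)) f a, mul_add,
      Finset.mul_sum]
    congr 1
    · split_ifs
      · rfl
      · rw [mul_zero]
    · exact Finset.sum_congr rfl fun i _ => by ring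
  rw [Finset.sum_congr rfl fun p _ => h1 p, Finset.sum_add_distrib, Finset.sum_comm]
  simp only [vv, mul_add, Finset.mul_sum, Finset.sum_add_distrib]
  ring

theorem sum_dot {ι : Type*} [Fintype ι] (ℓ : τ → L) (c : ι → L) (D : ι → Derivation ℤ L L)
    (w f : τ → L) : ∑ i, ℓ i * (w i + ∑ p, c p * D p (f i)) =
      ∑ i, ℓ i * w i + ∑ p, c p * ∑ i, ℓ i * D p (f i) := by
  simp only [mul_add, Finset.mul_sum, Finset.sum_add_distrib]
  rw [Finset.sum_comm]
  congr 1
  refine Finset.sum_congr rfl fun p _ => Finset.sum_congr rfl fun i _ => by ring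

open Classical in
/-- the vector fields and the point span the tangent space -/
theorem span_lemma (hG : ∀ a, (G a).IsHomogeneous (d a)) (f : τ → L) (hf : ∃ i, f i ≠ 0)
    (h2 : ∀ b, aeval f (G (Sum.inr b)) ≠ 0) (ℓ : τ → L)
    (hℓ : ∀ l, ∑ i, ℓ i * vv G hd δ f l i = 0) :
    ∃ ψ : A₁ → L, ∀ r, ℓ r = ∑ a, ψ a * gradAt (G (Sum.inl a)) f r := by
  obtain ⟨i₀, hi₀⟩ := hf
  set φ : CoeffIdx τ d → L := fun p => ∑ i, ℓ i * δ p (f i) with hφ
  have hV : ∀ l, ∑ i, ℓ i * vw f l i + ∑ p, vc G hd f l p * φ p = 0 := by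
    intro l
    rw [← hℓ l]
    exact (sum_dot ℓ (vc G hd f l) δ (vw f l) f).symm
  -- type 1
  have h3 : ∀ a (p q : τ) (J : Mono τ (d a - 1)),
      f p * φ (mulX hd a J q) = f q * φ (mulX hd a J p) := by
    intro a p q J
    have h4 := hV (Sum.inl ⟨a, p, q, J⟩)
    have h5 : ∀ m : CoeffIdx τ d, vc G hd f (Sum.inl ⟨a, p, q, J⟩) m * φ m =
        (Pi.single (mulX hd a J q) (f p) : CoeffIdx τ d → L) m * φ m -
        (Pi.single (mulX hd a J p) (f q) : CoeffIdx τ d → L) m * φ m := by
      intro m
      change ((Pi.single (mulX hd a J q) (f p) : CoeffIdx τ d → L) m -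
          (Pi.single (mulX hd a J p) (f q) : CoeffIdx τ d → L) m) * _ = _
      ring
    have h6 : ∀ i : τ, (vw (d := d) f (Sum.inl ⟨a, p, q, J⟩) i : L) = 0 := fun i => rfl
    simp only [h6, mul_zero, Finset.sum_const_zero, zero_add] at h4
    rw [Finset.sum_congr rfl fun m _ => h5 m, Finset.sum_sub_distrib, sum_pi_single_mul,
      sum_pi_single_mul] at h4
    exact sub_eq_zero.1 h4
  -- the common factor
  have h7 : ∀ a, ∃ ψ : L, ∀ m : Mono τ (d a), φ ⟨a, m⟩ = monoVal f m.1 * ψ := by
    intro a
    set m₀ : Mono τ (d a) := ⟨Finsupp.single i₀ (d a), Finsupp.degree_single _ _⟩ with hm₀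
    refine ⟨φ ⟨a, m₀⟩ / f i₀ ^ (d a), ?_⟩
    have key : ∀ j : ℕ, ∀ m : Mono τ (d a), m.1 i₀ + j = d a →
        φ ⟨a, m⟩ = monoVal f m.1 * (φ ⟨a, m₀⟩ / f i₀ ^ (d a)) := by
      intro j
      induction j with
      | zero =>
        intro m hm
        have h8 : m = m₀ := by
          apply Subtype.ext
          rw [hm₀]
          ext i
          by_cases hi : i = i₀
          · subst hi
            rw [Finsupp.single_eq_same]
            omega
          · rw [Finsupp.single_eq_of_ne hi]
            have h9 := m.2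
            have h10 : m.1 i₀ + m.1 i ≤ m.1.degree := by
              rw [Finsupp.degree_eq_sum]
              have h11 : ∑ x ∈ ({i₀, i} : Finset τ), m.1 x ≤ ∑ x, m.1 x :=
                Finset.sum_le_sum_of_subset (Finset.subset_univ _)
              rwa [Finset.sum_pair (Ne.symm hi)] at h11
            omega
        rw [h8, hm₀, monoVal_single, mul_div_cancel₀ _ (pow_ne_zero _ hi₀)]
      | succ j ih =>
        intro m hm
        have h8 : ∃ q, q ≠ i₀ ∧ m.1 q ≠ 0 := by
          by_contra hcon
          push Not at hcon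
          have h9 : m.1 = Finsupp.single i₀ (m.1 i₀) := by
            ext i
            by_cases hi : i = i₀
            · subst hi; rw [Finsupp.single_eq_same]
            · rw [Finsupp.single_eq_of_ne hi, hcon i hi]
          have h10 := m.2
          rw [h9, Finsupp.degree_single] at h10
          omega
        obtain ⟨q, hq, hmq⟩ := h8
        have h9 : m.1 = (m.1 - Finsupp.single q 1) + Finsupp.single q 1 := by
          rw [tsub_add_cancel_of_le]
          rw [Finsupp.single_le_iff]
          omega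
        have h10 : (m.1 - Finsupp.single q 1).degree = d a - 1 := by
          have h11 := m.2
          rw [h9, map_add, Finsupp.degree_single] at h11
          omega
        set J : Mono τ (d a - 1) := ⟨m.1 - Finsupp.single q 1, h10⟩ with hJ
        have h11 : mulX hd a J q = ⟨a, m⟩ := by
          unfold mulX
          congr 1
          apply Subtype.ext
          exact h9.symm
        have h12 := h3 a i₀ q J
        rw [h11] at h12
        have h13 := ih ⟨J.1 + Finsupp.single i₀ 1, (mulX hd a J i₀).2.2⟩ (by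
          simp only [Finsupp.add_apply, Finsupp.single_eq_same]
          have h14 : J.1 i₀ = m.1 i₀ := by
            rw [hJ]
            simp only [Finsupp.tsub_apply]
            rw [Finsupp.single_eq_of_ne (Ne.symm hq)]
            omega
          rw [h14]
          omega)
        have h14 : φ (mulX hd a J i₀) = monoVal f (J.1 + Finsupp.single i₀ 1) *
          (φ ⟨a, m₀⟩ / f i₀ ^ (d a)) := h13
        rw [h14, monoVal_add, monoVal_single, pow_one] at h12
        have h15 : monoVal f m.1 = monoVal f J.1 * f q := by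
          rw [h9, monoVal_add, monoVal_single, pow_one]
        rw [h15]
        apply mul_left_cancel₀ hi₀
        rw [h12]
        ring
    intro m
    refine key (d a - m.1 i₀) m ?_
    have h8 : m.1 i₀ ≤ m.1.degree := Finsupp.le_degree i₀ m.1
    have h9 := m.2
    omega
  choose ψ hψ using h7
  -- type 3
  have h8 : ∀ b, ψ (Sum.inr b) = 0 := by
    intro b
    have h9 := hV (Sum.inr (Sum.inr b))
    have h10 : ∀ i : τ, (vw (d := d) f (Sum.inr (Sum.inr b)) i : L) = 0 := fun i => rfl
    simp only [h10, mul_zero, Finset.sum_const_zero, zero_add] at h9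
    have h11 : ∀ p : CoeffIdx τ d, vc G hd f (Sum.inr (Sum.inr b)) p * φ p =
        if p.1 = Sum.inr b then algebraMap F L ((G p.1).coeff p.2.1) * φ p else 0 := by
      intro p
      change (if p.1 = Sum.inr b then algebraMap F L ((G p.1).coeff p.2.1) else 0) * φ p = _
      rw [ite_mul, zero_mul]
    rw [Finset.sum_congr rfl fun p _ => h11 p,
      sum_coeffIdx (Sum.inr b) (fun p => algebraMap F L ((G p.1).coeff p.2.1) * φ p)] at h9
    have h12 : ∑ m : Mono τ (d (Sum.inr b)), algebraMap F L ((G (Sum.inr b)).coeff m.1) *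
        φ ⟨Sum.inr b, m⟩ = aeval f (G (Sum.inr b)) * ψ (Sum.inr b) := by
      rw [aeval_eq_sum_mono (hG (Sum.inr b)) f, Finset.sum_mul]
      refine Finset.sum_congr rfl fun m _ => ?_
      rw [hψ, mul_assoc]
    rw [h12] at h9
    exact (mul_eq_zero.1 h9).resolve_left (h2 b)
  -- type 2
  refine ⟨fun a => -ψ (Sum.inl a), fun r => ?_⟩
  have h9 := hV (Sum.inr (Sum.inl (r, i₀)))
  have h10 : ∑ j, ℓ j * vw (d := d) f (Sum.inr (Sum.inl (r, i₀))) j = f i₀ * ℓ r := by
    rw [← sum_pi_single_mul r (f i₀) ℓ]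
    exact Finset.sum_congr rfl fun j _ => mul_comm _ _
  have h11 : ∑ p, vc G hd f (Sum.inr (Sum.inl (r, i₀))) p * φ p =
      ∑ a, f i₀ * gradAt (G a) f r * ψ a := by
    rw [Fintype.sum_sigma]
    refine Finset.sum_congr rfl fun a _ => ?_
    have h12 : (X i₀ * pderiv r (G a)).IsHomogeneous (d a) := by
      have h5 := (isHomogeneous_X F i₀).mul ((hG a).pderiv (i := r))
      have h6 : 1 + (d a - 1) = d a := by have := hd a; omega
      rwa [h6] at h5
    have h13 := aeval_eq_sum_mono h12 f
    rw [map_mul, aeval_X] at h13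
    change ∑ m : Mono τ (d a), algebraMap F L ((X i₀ * pderiv r (G a)).coeff m.1) * φ ⟨a, m⟩ = _
    rw [show f i₀ * gradAt (G a) f r = _ from h13, Finset.sum_mul]
    refine Finset.sum_congr rfl fun m _ => ?_
    rw [hψ, mul_assoc]
  rw [h10, h11, Fintype.sum_sum_type] at h9
  simp only [h8, mul_zero, Finset.sum_const_zero, add_zero] at h9
  apply mul_left_cancel₀ hi₀
  rw [Finset.mul_sum]
  have h12 : ∑ a : A₁, f i₀ * (-ψ (Sum.inl a) * gradAt (G (Sum.inl a)) f r) =
      -∑ a : A₁, f i₀ * gradAt (G (Sum.inl a)) f r * ψ (Sum.inl a) := by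
    rw [← Finset.sum_neg_distrib]
    exact Finset.sum_congr rfl fun a _ => by ring
  rw [h12]
  linear_combination h9

end Pool.Agent.VG
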