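import Pool.Agent.VG.Local
import Pool.Agent.VG.Der

/-!
# The global inequality

`MP_4dacf8_ag`, Q1 for very general (log) complete intersections.
-/

set_option linter.unusedSectionVars false

namespace Pool.Agent.VG

open MvPolynomial Pool.Agent.Helper11

section scale

variable {k F L τ : Type*} [Field k] [Field F] [Field L] [Algebra k F]
    [Algebra k L] [Algebra F L] [IsScalarTower k F L] [Fintype τ]

theorem aeval_scale' {E : Type*} [Field E] [Algebra F E] {Q : MvPolynomial τ F} {d : ℕ}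
    (hQ : Q.IsHomogeneous d) (l : E) (x : τ → E) :
    aeval (fun i => l * x i) Q = l ^ d * aeval x Q := by
  rw [aeval_eq_sum_mono hQ, aeval_eq_sum_mono hQ, Finset.mul_sum]
  refine Finset.sum_congr rfl fun m _ => ?_
  have h1 : monoVal (fun i => l * x i) m.1 = l ^ d * monoVal x m.1 := by
    unfold monoVal Finsupp.prod
    simp only [mul_pow]
    rw [Finset.prod_mul_distrib, Finset.prod_pow_eq_pow_sum]
    congr 2
    exact m.2
  rw [h1]
  ring

theorem meets_scale (v : Place k L) {d : ℕ} {Q : MvPolynomial τ F} (hQ : Q.IsHomogeneous d)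
    {f : τ → L} (hf : ∃ i, f i ≠ 0) (hQf : aeval f Q ≠ 0) {l : L} (hl : l ≠ 0) :
    Meets v d Q (fun i => l * f i) ↔ Meets v d Q f := by
  unfold Meets
  rw [v.minOrd_mul f hf hl, aeval_scale' hQ, v.ord_mul _ _ (pow_ne_zero _ hl) hQf, v.ord_pow]
  constructor <;> intro h <;> linarith

end scale

theorem zero_notMem_coeffs {F τ : Type*} [Field F] {Q : MvPolynomial τ F} (m : Q.support) :
    Q.coeff m.1 ≠ 0 := mem_support_iff.1 m.2

section

variable {k F L : Type*} [Field k] [Field F] [Field L] [Algebra k F]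
    [Algebra k L] [Algebra F L] [IsScalarTower k F L] [CharZero k] [IsAlgClosed k]
    [FunField k F] [FunField k L] [FiniteDimensional F L]

/-- the total pole order of finitely many elements at a place -/
noncomputable def poleSum (𝓑 : Finset F) (v : Place k L) : ℤ :=
  ∑ β ∈ 𝓑, max 0 (-v.ord (algebraMap F L β))

theorem poleSum_nonneg (𝓑 : Finset F) (v : Place k L) : 0 ≤ poleSum 𝓑 v :=
  Finset.sum_nonneg fun _ _ => le_max_left _ _

theorem neg_ord_le_poleSum {𝓑 : Finset F} (v : Place k L) {β : F} (hβ : β ∈ 𝓑) :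
    -v.ord (algebraMap F L β) ≤ poleSum 𝓑 v :=
  (le_max_right _ _).trans
    (Finset.single_le_sum (f := fun β => max 0 (-v.ord (algebraMap F L β)))
      (fun _ _ => le_max_left _ _) hβ)

theorem mem_ge_poleSum {𝓑 : Finset F} (v : Place k L) {β : F} (hβ : β ∈ 𝓑) :
    algebraMap F L β ∈ v.ge (-poleSum 𝓑 v) := by
  apply v.mem_ge_of_le
  have := neg_ord_le_poleSum v hβ
  omega

theorem supp_poleSum (𝓑 : Finset F) : {v : Place k L | poleSum 𝓑 v ≠ 0}.Finite :=
  supp_sum 𝓑 (fun β (v : Place k L) => max 0 (-v.ord (algebraMap F L β)))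
    fun _ _ => supp_negpart _

theorem finsum_poleSum (𝓑 : Finset F) :
    ∑ᶠ v : Place k L, poleSum 𝓑 v = (Module.finrank F L : ℤ) * ∑ β ∈ 𝓑, ht k β := by
  unfold poleSum
  rw [fs_sum 𝓑 (fun β (v : Place k L) => max 0 (-v.ord (algebraMap F L β)))
    fun _ _ => supp_negpart _, Finset.mul_sum]
  refine Finset.sum_congr rfl fun β _ => ?_
  rw [← ht_ext (L := L) β]
  rfl

end

section

variable {k L A₂ τ F A₁ : Type*} [Field k] [Field F] [Field L] [Algebra k F]
    [Algebra k L] [Algebra F L] [IsScalarTower k F L] [CharZero k] [IsAlgClosed k]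
    [FunField k F] [FunField k L] [FiniteDimensional F L]
    [Fintype A₁] [Fintype A₂] [Fintype τ] {d : A₁ ⊕ A₂ → ℕ}
    (G : A₁ ⊕ A₂ → MvPolynomial τ F)

theorem supp_exc (f : τ → L) (b : A₂) : {v : Place k L | exc G d v f b ≠ 0}.Finite :=
  supp_sub (supp_ord _) (supp_const_mul _ (supp_minOrd f))

theorem finsum_exc (f : τ → L) (b : A₂) :
    ∑ᶠ v : Place k L, exc G d v f b = d (Sum.inr b) * htP k f := by
  unfold exc htP
  rw [fs_sub (supp_ord _) (supp_const_mul _ (supp_minOrd f)), finsum_ord, fs_const_mul, fs_neg]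
  ring

theorem finite_meets (f : τ → L) : {v : Place k L | ∃ b, Meets v (d (Sum.inr b)) (G (Sum.inr b))
    f}.Finite := by
  have h : (⋃ b, ({v : Place k L | v.minOrd (coeffs L (G (Sum.inr b))) ≠ 0} ∪
      {v | v.minOrd f ≠ 0} ∪ {v | v.ord (aeval f (G (Sum.inr b))) ≠ 0})).Finite :=
    Set.finite_iUnion fun b => ((supp_minOrd _).union (supp_minOrd f)).union (supp_ord _)
  apply h.subset
  rintro v ⟨b, hb⟩
  rw [Set.mem_iUnion]
  refine ⟨b, ?_⟩
  by_contra hcon
  rw [Set.mem_union, Set.mem_union] at hcon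
  push Not at hcon
  obtain ⟨⟨h1, h2⟩, h3⟩ := hcon
  simp only [Set.mem_ofPred_eq, not_not] at h1 h2 h3
  unfold Meets at hb
  rw [h1, h2, h3] at hb
  simp at hb

end

end Pool.Agent.VG
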