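import Pool.Agent.VG.LocD

/-!
# The local determinant estimate
-/

namespace Pool.Agent.VG

open MvPolynomial Pool.Agent.Helper11

/-- a determinant whose entries have order at least `a i + b j` has order at least
the sum of all weights -/
theorem ldet_det_mem_ge_weights {k L m : Type*} [Field k] [Field L] [Algebra k L]
    [Fintype m] [DecidableEq m] (v : Place k L) (M : Matrix m m L) (a b : m → ℤ)
    (hM : ∀ i j, M i j ∈ v.ge (a i + b j)) : M.det ∈ v.ge (∑ i, a i + ∑ j, b j) := by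
  rw [Matrix.det_apply]
  refine sum_mem fun σ _ => ?_
  rw [Units.smul_def]
  refine zsmul_mem ?_ _
  have h := v.prod_mem_ge Finset.univ (fun i => M (σ i) i) (fun i => a (σ i) + b i)
    (fun i _ => hM (σ i) i)
  rw [Finset.sum_add_distrib, Equiv.sum_comp σ a] at h
  exact h

/-- the determinant estimate for a matrix corrected by a rank one matrix -/
theorem ldet_det_sub_mem_ge {k L : Type*} [Field k] [Field L] [Algebra k L] (v : Place k L)
    {n : ℕ} (M₀ : Matrix (Fin (n + 1)) (Fin (n + 1)) L) (y Γ : Fin (n + 1) → L)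
    (r b : Fin (n + 1) → ℤ) (w z : ℤ) (hM : ∀ i j, M₀ i j ∈ v.ge (r i + b j))
    (hy : ∀ i, y i ∈ v.ge (r i + z)) (hΓ : ∀ j, Γ j ∈ v.ge (w + b j)) (hwz : w + z ≤ 0) :
    (Matrix.of fun i j => M₀ i j - y i * Γ j).det ∈ v.ge (∑ i, r i + w + (∑ j, b j + z)) := by
  have h1 : (Matrix.of fun i j => M₀ i j - y i * Γ j) =
      M₀ - (Matrix.of fun i (_ : Unit) => y i) * (Matrix.of fun (_ : Unit) j => Γ j) := by
    ext i j
    simp [Matrix.mul_apply]
  rw [h1, ← Matrix.det_fromBlocks_one₂₂]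
  have h2 := ldet_det_mem_ge_weights v
    (Matrix.fromBlocks M₀ (Matrix.of fun i (_ : Unit) => y i)
      (Matrix.of fun (_ : Unit) j => Γ j) 1) (Sum.elim r fun _ => w) (Sum.elim b fun _ => z) (by
      rintro (i | i) (j | j)
      · exact hM i j
      · exact hy i
      · exact hΓ j
      · change (1 : Matrix Unit Unit L) i j ∈ v.ge (w + z)
        rw [Subsingleton.elim i j, Matrix.one_apply_eq]
        exact v.ge_anti hwz v.one_mem_ge)
  simpa using h2

/-- multiplying by a power of the uniformizer before applying `d/dt` -/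
theorem ldet_col_mem_ge {k L : Type*} [Field k] [Field L] [Algebra k L] [FunField k L]
    [CharZero k] [IsAlgClosed k] (v : Place k L) (ν r θ : ℤ) (d : ℕ) (g : L) (hg : g ∈ v.ge r)
    (hθ : 0 ≤ θ) (hθ' : r = d * ν ∨ 1 ≤ θ) :
    v.dv g - ν * (v.unif)⁻¹ * (d * g) ∈ v.ge (r - θ) := by
  have ht := v.unif_ne_zero
  set z := v.unif ^ (-(d * ν)) * g with hz
  have hgz : g = v.unif ^ ((d : ℤ) * ν) * z := by
    rw [hz, ← mul_assoc, ← zpow_add₀ ht]; simp
  have hz0 : z ∈ v.ge (r - d * ν) := by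
    have := v.mul_mem_ge (v.mem_ge_ord (v.unif ^ (-((d : ℤ) * ν)))) hg
    rw [v.ord_zpow, v.ord_unif, mul_one] at this
    refine v.ge_anti ?_ this
    omega
  have h1 : v.dv g - ν * (v.unif)⁻¹ * (d * g) = v.unif ^ ((d : ℤ) * ν) * v.dv z := by
    rw [hgz, v.dv_unif_zpow_mul, zpow_sub_one₀ ht]
    push_cast
    ring
  rw [h1]
  have h2 : v.dv z ∈ v.ge (r - d * ν - θ) := by
    rcases hθ' with h | h
    · have h3 : z ∈ v.ge 0 := by
        rw [h, sub_self] at hz0
        exact hz0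
      refine v.ge_anti ?_ (v.dv_mem_ge_zero h3)
      omega
    · refine v.ge_anti ?_ (v.dv_mem_ge hz0)
      omega
  have h4 := v.mul_mem_ge (v.mem_ge_ord (v.unif ^ ((d : ℤ) * ν))) h2
  rw [v.ord_zpow, v.ord_unif, mul_one] at h4
  refine v.ge_anti ?_ h4
  omega

/-- the local determinant estimate -/
theorem det_mem_ge {k L ι : Type*} [Field k] [Field L] [Algebra k L] [FunField k L] [CharZero k]
    [IsAlgClosed k] [Fintype ι] (v : Place k L) {s : L} (hs : Transcendental k s) {n : ℕ}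
    (δ : ι → Derivation ℤ L L)
    (hδk : ∀ p (c : k), ∃ c' : k, δ p (algebraMap k L c) = algebraMap k L c')
    (hδs : ∀ p, δ p s = 0) (c : Fin n → ι → L) (g : Fin (n + 1) → L) (dg : Fin (n + 1) → ℕ)
    (h : Fin n → Fin (n + 1) → L) (ν B : ℤ) (r : Fin (n + 1) → ℤ) (hr : ∀ i, dg i * ν ≤ r i)
    (hg : ∀ i, g i ∈ v.ge (r i)) (hc : ∀ l p, c l p ∈ v.ge (ν - B))
    (hh : ∀ l i, h l i ∈ v.ge (r i + (ν - B))) (θ : ℤ) (hθ : 0 ≤ θ)
    (hθ' : ∀ i, r i = dg i * ν ∨ 1 ≤ θ) :
    (Matrix.of fun i j : Fin (n + 1) => Fin.cases (motive := fun _ => L) ((dg i : L) * g i)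
      (fun l => ∑ p, c l p * δ p (g i) + h l i) j).det ∈
      v.ge (∑ i, r i + n * (ν - B) - v.ord (v.dv s) - θ - 2 * max 0 (-v.ord s)) := by
  classical
  have ht := v.unif_ne_zero
  have hds : v.dv s ≠ 0 := v.dv_ne_zero hs
  -- the derivations which kill the uniformizer
  let δ₀ : ι → Derivation ℤ L L := fun p => δ p - (δ p v.unif) • (v.dv.restrictScalars ℤ)
  have hδ₀ : ∀ p y, δ₀ p y = δ p y - δ p v.unif * v.dv y := fun p y => rfl
  have hδ₀t : ∀ p, δ₀ p v.unif = 0 := by
    intro p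
    rw [hδ₀, v.dv_unif, mul_one, sub_self]
  have hδ₀k : ∀ p (c : k), ∃ c' : k, δ₀ p (algebraMap k L c) = algebraMap k L c' := by
    intro p c
    obtain ⟨c', hc'⟩ := hδk p c
    refine ⟨c', ?_⟩
    rw [hδ₀, Derivation.map_algebraMap, mul_zero, sub_zero, hc']
  have hδ₀ge : ∀ p {m : ℤ} {y : L}, y ∈ v.ge m → δ₀ p y ∈ v.ge m := fun p m y hy =>
    mem_ge_of_derivation v (δ₀ p) (hδ₀k p) (hδ₀t p) hy
  have hδt : ∀ p, δ p v.unif = -(δ₀ p s) * (v.dv s)⁻¹ := by
    intro p
    have h1 := hδ₀ p s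
    rw [hδs, zero_sub] at h1
    rw [h1, neg_neg, mul_assoc, mul_inv_cancel₀ hds, mul_one]
  -- the pieces
  set lam : L := -(ν * (v.unif)⁻¹ * (v.dv s)⁻¹) with hlam
  set y : Fin (n + 1) → L := fun i => (v.dv (g i) - ν * (v.unif)⁻¹ * (dg i * g i)) * (v.dv s)⁻¹
    with hy
  set Γ : Fin (n + 1) → L := Fin.cases 0 (fun l => ∑ p, c l p * δ₀ p s) with hΓ
  set M₀ : Matrix (Fin (n + 1)) (Fin (n + 1)) L := Matrix.of fun i j =>
    Fin.cases (motive := fun _ => L) ((dg i : L) * g i)
      (fun l => ∑ p, c l p * δ₀ p (g i) + h l i) j with hM₀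
  set b : Fin (n + 1) → ℤ := Fin.cases 0 (fun _ => ν - B) with hb
  set w : ℤ := min 0 (v.ord s) with hw
  set z : ℤ := -v.ord (v.dv s) - θ - (if v.ord s < 0 then 1 else 0) with hz
  -- the column operation
  have hdet : (Matrix.of fun i j : Fin (n + 1) => Fin.cases (motive := fun _ => L)
      ((dg i : L) * g i) (fun l => ∑ p, c l p * δ p (g i) + h l i) j).det =
      (Matrix.of fun i j => M₀ i j - y i * Γ j).det := by
    rw [← Matrix.det_transpose, ← Matrix.det_transpose (Matrix.of fun i j => M₀ i j - y i * Γ j)]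
    refine Matrix.det_eq_of_forall_row_eq_smul_add_const (fun l => lam * Γ l) 0 ?_ ?_
    · simp [hΓ]
    · intro j i
      simp only [Matrix.transpose_apply]
      refine Fin.cases ?_ (fun l => ?_) j
      · simp [hM₀, hΓ]
      · have hsum : ∑ p, c l p * δ p (g i) =
            ∑ p, c l p * δ₀ p (g i) - v.dv (g i) * (v.dv s)⁻¹ * ∑ p, c l p * δ₀ p s := by
          rw [Finset.mul_sum, ← Finset.sum_sub_distrib]
          refine Finset.sum_congr rfl fun p _ => ?_
          have h1 := hδ₀ p (g i)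
          rw [hδt] at h1
          rw [h1]
          ring
        simp only [Matrix.of_apply, hM₀, hΓ, hy, Fin.cases_succ, Fin.cases_zero, hlam, hsum]
        ring
  rw [hdet]
  have hmain := ldet_det_sub_mem_ge v M₀ y Γ r b w z ?_ ?_ ?_ ?_
  · refine v.ge_anti ?_ hmain
    have hsb : ∑ j, b j = n * (ν - B) := by
      rw [Fin.sum_univ_succ]
      simp only [hb, Fin.cases_zero, Fin.cases_succ, zero_add, Finset.sum_const,
        Finset.card_univ, Fintype.card_fin, nsmul_eq_mul]
    rw [hsb, hw, hz]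
    by_cases h0 : v.ord s < 0
    · rw [if_pos h0, min_eq_right h0.le, max_eq_right (by omega)]
      omega
    · rw [if_neg h0, min_eq_left (by omega), max_eq_left (by omega)]
      omega
  · intro i j
    refine Fin.cases ?_ (fun l => ?_) j
    · simp only [hM₀, hb, Matrix.of_apply, Fin.cases_zero, add_zero]
      have := v.mul_mem_ge (v.natCast_mem_ge (dg i)) (hg i)
      rwa [zero_add] at this
    · simp only [hM₀, hb, Matrix.of_apply, Fin.cases_succ]
      refine add_mem (sum_mem fun p _ => ?_) (hh l i)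
      have := v.mul_mem_ge (hc l p) (hδ₀ge p (hg i))
      rwa [add_comm] at this
  · intro i
    have h1 := v.mul_mem_ge (ldet_col_mem_ge v ν (r i) θ (dg i) (g i) (hg i) hθ (hθ' i))
      (v.mem_ge_ord (v.dv s)⁻¹)
    rw [v.ord_inv] at h1
    refine v.ge_anti ?_ h1
    rw [hz]
    split_ifs <;> omega
  · intro j
    refine Fin.cases ?_ (fun l => ?_) j
    · simp only [hΓ, Fin.cases_zero]
      exact zero_mem _
    · simp only [hΓ, hb, Fin.cases_succ]
      refine sum_mem fun p _ => ?_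
      have h1 := v.mul_mem_ge (hc l p) (hδ₀ge p (v.mem_ge_ord s))
      refine v.ge_anti ?_ h1
      rw [hw]
      have := min_le_right 0 (v.ord s)
      omega
  · rw [hw, hz]
    by_cases h0 : v.ord s < 0
    · have h1 := (v.ord_dv h0.ne).2
      rw [if_pos h0, min_eq_right h0.le, h1]
      omega
    · rw [if_neg h0, min_eq_left (by omega)]
      have h2 : s ∈ v.ge 0 := v.mem_ge_of_le (by omega)
      have h3 := v.le_ord_of_mem (v.dv_mem_ge_zero h2) hds
      omega

end Pool.Agent.VG
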