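import Pool.Agent.VG.Defs

set_option linter.unusedSectionVars false

namespace Pool.Agent.VG

open Pool.Agent.Helper11

section locd

variable {k L : Type*} [Field k] [Field L] [Algebra k L] [FunField k L]
    [CharZero k] [IsAlgClosed k] (v : Place k L) (Δ : Derivation ℤ L L)

theorem locd_const_mem (hΔ : ∀ c : k, ∃ c' : k, Δ (algebraMap k L c) = algebraMap k L c')
    (c : k) : Δ (algebraMap k L c) ∈ v.ge 0 := by
  obtain ⟨c', hc'⟩ := hΔ c
  rw [hc']
  exact v.mem_ge_of_le (by rw [v.ord_algebraMap])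

theorem locd_bounded (hΔ : ∀ c : k, ∃ c' : k, Δ (algebraMap k L c) = algebraMap k L c')
    (h0 : Δ v.unif = 0) : ∃ M : ℕ, ∀ y ∈ v.ge 0, Δ y ∈ v.ge (-M) := by
  classical
  have hF : Fact (Transcendental k v.unif) := ⟨v.transcendental_unif⟩
  set x := v.unif with hx
  have hx0 : x ∈ v.ge 0 := v.mem_ge_of_le (by rw [v.ord_unif]; decide)
  obtain ⟨s, hs⟩ := (finite_Ox k hF.out).fg_top
  obtain ⟨M, hM⟩ : ∃ M : ℕ, ∀ e ∈ s, Δ (e : L) ∈ v.ge (-M) := by
    refine ⟨s.sup fun e => (- v.ord (Δ (e : L))).toNat, fun e he => ?_⟩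
    right
    have := Finset.le_sup (f := fun e : Ox k x => (- v.ord (Δ (e : L))).toNat) he
    omega
  have hR : ∀ r : Rx k x, Δ (r : L) ∈ v.ge 0 := by
    rintro ⟨r, hr⟩
    obtain ⟨p, rfl⟩ := Algebra.adjoin_mem_exists_aeval _ _ hr
    simp only
    induction p using Polynomial.induction_on' with
    | add p q hp hq =>
      rw [map_add, map_add]
      exact add_mem (hp (Polynomial.aeval_mem_adjoin_singleton k x))
        (hq (Polynomial.aeval_mem_adjoin_singleton k x))
    | monomial n c =>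
      rw [Polynomial.aeval_monomial, Derivation.leibniz, Derivation.leibniz_pow, h0, smul_zero,
        smul_zero, smul_zero, zero_add, smul_eq_mul]
      have h1 := v.mul_mem_ge (v.pow_mem_ge hx0 n) (locd_const_mem v Δ hΔ c)
      simpa using h1
  have hO : ∀ a : Ox k x, Δ (a : L) ∈ v.ge (-M) := by
    intro a
    have ha : a ∈ Submodule.span (Rx k x) (s : Set (Ox k x)) := by rw [hs]; trivial
    induction ha using Submodule.span_induction with
    | mem e he => exact hM e he
    | zero =>
      change Δ 0 ∈ _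
      rw [map_zero]; exact zero_mem _
    | add a b _ _ ha hb =>
      change Δ ((a : L) + (b : L)) ∈ _
      rw [map_add]; exact add_mem ha hb
    | smul r a _ ha =>
      change Δ ((r : L) * (a : L)) ∈ _
      rw [Derivation.leibniz, smul_eq_mul, smul_eq_mul]
      refine add_mem ?_ ?_
      · have := v.mul_mem_ge (v.mem_ge_of_mem_Rx hx0 r) ha
        rwa [zero_add] at this
      · have := v.mul_mem_ge (v.mem_ge_of_mem_Ox hx0 a) (hR r)
        refine v.ge_anti ?_ this
        omega
  refine ⟨M, fun y hy => ?_⟩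
  set P := v.center hx0 with hP
  have hvP : v = placeOfPrime P := v.eq_placeOfPrime_center hx0
  by_cases hy0 : y = 0
  · rw [hy0, map_zero]; exact zero_mem _
  have hPy : P.valuation L y ≤ 1 := by
    have h1 := v.le_ord_of_mem hy hy0
    have h1' : 0 ≤ (placeOfPrime P).ord y := hvP ▸ h1
    rw [placeOfPrime_ord] at h1'
    have h4 : P.valuation L y ≠ 0 := (Valuation.ne_zero_iff _).2 hy0
    rw [← WithZero.log_le_log h4 one_ne_zero, WithZero.log_one]
    omega
  obtain ⟨n, d, hnd⟩ := P.exists_primeCompl_mul_eq_of_integer y hPy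
  have hd : (d : Ox k x) ∉ v.centerIdeal hx0 := d.2
  have hd1 := v.ord_eq_zero_of_notMem hx0 _ hd
  have hd0 : ((d : Ox k x) : L) ≠ 0 := by
    intro h; exact hd (Or.inl h)
  have hnd' : y * ((d : Ox k x) : L) = (n : L) := hnd
  have h5 := congrArg Δ hnd'
  rw [Derivation.leibniz, smul_eq_mul, smul_eq_mul] at h5
  have h6 : Δ y = ((d : Ox k x) : L)⁻¹ * (Δ (n : L) - y * Δ ((d : Ox k x) : L)) := by
    field_simp
    linear_combination h5
  rw [h6]
  have h7 : Δ (n : L) - y * Δ ((d : Ox k x) : L) ∈ v.ge (-M) := by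
    refine sub_mem (hO n) ?_
    have := v.mul_mem_ge hy (hO (d : Ox k x))
    rwa [zero_add] at this
  have h8 := v.mul_mem_ge (v.mem_ge_ord ((d : Ox k x) : L)⁻¹) h7
  rw [v.ord_inv, hd1] at h8
  simpa using h8

theorem locd_mem_ge_zero (hΔ : ∀ c : k, ∃ c' : k, Δ (algebraMap k L c) = algebraMap k L c')
    (h0 : Δ v.unif = 0) {y : L} (hy : y ∈ v.ge 0) : Δ y ∈ v.ge 0 := by
  obtain ⟨M, hM⟩ := locd_bounded v Δ hΔ h0
  induction M generalizing y with
  | zero => simpa using hM y hy
  | succ M ih =>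
    apply ih hy
    intro y hy
    obtain ⟨c, hc⟩ := v.exists_residue hy
    set z := (y - algebraMap k L c) / v.unif with hz
    have hz0 : z ∈ v.ge 0 := by
      have := v.mul_mem_ge hc (v.mem_ge_ord v.unif⁻¹)
      rw [v.ord_inv, v.ord_unif] at this
      simpa [hz, div_eq_mul_inv] using this
    have hyz : y = algebraMap k L c + v.unif * z := by
      rw [hz]; field_simp [v.unif_ne_zero]; ring
    rw [hyz, map_add, Derivation.leibniz, h0, smul_zero, add_zero, smul_eq_mul]
    refine add_mem (v.ge_anti (by omega) (locd_const_mem v Δ hΔ c)) ?_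
    have h1 := v.mul_mem_ge (v.mem_ge_ord v.unif) (hM z hz0)
    rw [v.ord_unif] at h1
    refine v.ge_anti ?_ h1
    push_cast; omega

end locd

/-- a derivation which preserves the constants and kills a uniformizer does not lower orders -/
theorem mem_ge_of_derivation {k L : Type*} [Field k] [Field L] [Algebra k L] [FunField k L]
    [CharZero k] [IsAlgClosed k] (v : Place k L) (Δ : Derivation ℤ L L)
    (hΔ : ∀ c : k, ∃ c' : k, Δ (algebraMap k L c) = algebraMap k L c') (h0 : Δ v.unif = 0)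
    {n : ℤ} {y : L} (hy : y ∈ v.ge n) : Δ y ∈ v.ge n := by
  set z := v.unif ^ (-n) * y with hz
  have hz0 : z ∈ v.ge 0 := by
    have := v.mul_mem_ge (v.mem_ge_ord (v.unif ^ (-n))) hy
    rw [v.ord_zpow, v.ord_unif, mul_one, neg_add_cancel] at this
    exact this
  have hyz : y = v.unif ^ n * z := by
    rw [hz, ← mul_assoc, ← zpow_add₀ v.unif_ne_zero]; simp
  rw [hyz, Derivation.leibniz, Derivation.leibniz_zpow, h0, smul_zero, smul_zero, smul_zero,
    add_zero, smul_eq_mul]
  have h1 := v.mul_mem_ge (v.mem_ge_ord (v.unif ^ n)) (locd_mem_ge_zero v Δ hΔ h0 hz0)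
  rw [v.ord_zpow, v.ord_unif] at h1
  simpa using h1

end Pool.Agent.VG
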