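import Pool.Agent.VG.Defs

set_option linter.unusedSectionVars false

namespace Pool.Agent.VG

open MvPolynomial Pool.Agent.Helper11

/-- completion of a linearly independent family to a basis with a prescribed index set -/
theorem mu_complete {L ι κ τ : Type*} [Field L] [Fintype ι] [Fintype κ] [Fintype τ]
    (hcard : Fintype.card τ = Fintype.card ι + Fintype.card κ)
    (v : ι → τ → L) (hv : LinearIndependent L v) :
    ∃ w : κ → τ → L, LinearIndependent L (Sum.elim v w) := by
  classical
  set S : Submodule L (τ → L) := Submodule.span L (Set.range v) with hS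
  have h1 : Module.finrank L S = Fintype.card ι := finrank_span_eq_card hv
  have h2 : Module.finrank L ((τ → L) ⧸ S) = Fintype.card κ := by
    have h3 := Submodule.finrank_quotient_add_finrank S
    rw [h1, Module.finrank_fintype_fun_eq_card, hcard] at h3
    omega
  let b : Module.Basis κ L ((τ → L) ⧸ S) :=
    (Module.finBasisOfFinrankEq L _ h2).reindex (Fintype.equivFin κ).symm
  choose w hw using fun j : κ => Submodule.Quotient.mk_surjective S (b j)
  refine ⟨w, ?_⟩
  let f : ι → S := fun i => ⟨v i, Submodule.subset_span ⟨i, rfl⟩⟩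
  have hf : LinearIndependent L f := by
    apply LinearIndependent.of_comp S.subtype
    exact hv
  have hg : LinearIndependent L (Submodule.Quotient.mk (p := S) ∘ w) := by
    have : (Submodule.Quotient.mk (p := S) ∘ w) = b := funext hw
    rw [this]
    exact b.linearIndependent
  exact LinearIndependent.sumElim_of_quotient hf w hg

theorem mu_det_ne_zero {L ι τ : Type*} [Field L] [Fintype ι] [DecidableEq ι]
    (e : ι ≃ τ) (v : ι → τ → L) (hv : LinearIndependent L v) :
    (Matrix.of fun r j : ι => v r (e j)).det ≠ 0 := by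
  have h1 : LinearIndependent L (fun r : ι => (LinearEquiv.funCongrLeft L L e) (v r)) :=
    hv.map' (LinearEquiv.funCongrLeft L L e).toLinearMap (LinearEquiv.ker _)
  have h2 : IsUnit (Matrix.of fun r j : ι => v r (e j)) := by
    rw [← Matrix.linearIndependent_rows_iff_isUnit]
    exact h1
  rw [Matrix.isUnit_iff_isUnit_det] at h2
  exact h2.ne_zero

theorem exists_mu {L A τ : Type*} [Field L] [Fintype A] [Fintype τ] [DecidableEq A] {n : ℕ}
    (e : A ⊕ Fin (n + 1) ≃ τ) (D : A → τ → L) (hD : LinearIndependent L D)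
    (M : Fin (n + 1) → τ → L) (hM : LinearIndependent L M)
    (h : ∀ a j, ∑ i, D a i * M j i = 0) :
    ∃ μ : L, μ ≠ 0 ∧ ∀ W : Fin (n + 1) → τ → L,
      (Matrix.of fun (r j : A ⊕ Fin (n + 1)) => (Sum.elim D W r) (e j)).det * μ =
        (Matrix.of fun i j : Fin (n + 1) => ∑ t, W i t * M j t).det := by
  have hcard : Fintype.card τ = Fintype.card A + Fintype.card (Fin (n + 1)) := by
    rw [← Fintype.card_sum]
    exact (Fintype.card_congr e).symm
  obtain ⟨W0, hW0⟩ := mu_complete hcard D hD
  obtain ⟨M', hM'⟩ := mu_complete (κ := A) (by rw [hcard, add_comm]) M hM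
  have hM'' : LinearIndependent L (Sum.elim M' M) := by
    have := hM'.comp (Equiv.sumComm A (Fin (n + 1))) (Equiv.injective _)
    have e1 : Sum.elim M M' ∘ (Equiv.sumComm A (Fin (n + 1))) = Sum.elim M' M := by
      funext r
      rcases r with r | r <;> rfl
    rwa [e1] at this
  have hA0 := mu_det_ne_zero e _ hW0
  have hP0 := mu_det_ne_zero e _ hM''
  set P : Matrix (A ⊕ Fin (n + 1)) (A ⊕ Fin (n + 1)) L :=
    Matrix.of fun r j => (Sum.elim M' M r) (e j) with hP
  set DM : Matrix A A L := Matrix.of fun a a' => ∑ t, D a t * M' a' t with hDM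
  have key : ∀ W : Fin (n + 1) → τ → L,
      (Matrix.of fun (r j : A ⊕ Fin (n + 1)) => (Sum.elim D W r) (e j)).det * P.det =
        DM.det * (Matrix.of fun i j : Fin (n + 1) => ∑ t, W i t * M j t).det := by
    intro W
    rw [← Matrix.det_transpose P, ← Matrix.det_mul]
    have e2 : (Matrix.of fun (r j : A ⊕ Fin (n + 1)) => (Sum.elim D W r) (e j)) * P.transpose =
        Matrix.fromBlocks DM 0 (Matrix.of fun i a' => ∑ t, W i t * M' a' t)
          (Matrix.of fun i j : Fin (n + 1) => ∑ t, W i t * M j t) := by
      ext r c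
      rw [Matrix.mul_apply]
      have e3 : ∑ j, (Matrix.of fun (r j : A ⊕ Fin (n + 1)) => (Sum.elim D W r) (e j)) r j *
          P.transpose j c = ∑ t, (Sum.elim D W r) t * (Sum.elim M' M c) t :=
        e.sum_comp (fun t => (Sum.elim D W r) t * (Sum.elim M' M c) t)
      rw [e3]
      rcases r with r | r <;> rcases c with c | c
      · rfl
      · simpa using h r c
      · rfl
      · rfl
    rw [e2, Matrix.det_fromBlocks_zero₁₂]
  have hDM0 : DM.det ≠ 0 := by
    intro h0
    have := key W0
    rw [h0, zero_mul] at this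
    exact (mul_ne_zero hA0 hP0) this
  refine ⟨P.det / DM.det, div_ne_zero hP0 hDM0, fun W => ?_⟩
  rw [← mul_div_assoc, key W, mul_div_cancel_left₀ _ hDM0]

end Pool.Agent.VG
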