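import Pool.Agent.VG.Defs

set_option linter.unusedSectionVars false

/-! # Local consequence of the Nullstellensatz -/

namespace Pool.Agent.VG

open MvPolynomial Pool.Agent.Helper11

/-- the Jacobian matrix of the equations `G (inl a)` of `X`, completed by the rows given by `κ`:
gradients of some of the `G (inr b)` and unit vectors. -/
noncomputable def jac {F L A₁ A₂ τ : Type*} [Field F] [Field L] [Algebra F L] [DecidableEq τ]
    {n : ℕ} (G : A₁ ⊕ A₂ → MvPolynomial τ F) (e : A₁ ⊕ Fin (n + 1) ≃ τ)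
    (κ : Fin (n + 1) → A₂ ⊕ τ) (f : τ → L) :
    Matrix (A₁ ⊕ Fin (n + 1)) (A₁ ⊕ Fin (n + 1)) L :=
  Matrix.of fun r j => (Sum.elim (fun a => gradAt (G (Sum.inl a)) f)
    (fun i => Sum.elim (fun b => gradAt (G (Sum.inr b)) f) (fun t => Pi.single t 1) (κ i)) r) (e j)

universe w

/-! ### algebra -/

private theorem null_aeval_scale {F E τ : Type*} [Field F] [Field E] [Algebra F E]
    {Q : MvPolynomial τ F} {d : ℕ} (hQ : Q.IsHomogeneous d) (l : E) (x : τ → E) :
    aeval (fun i => l * x i) Q = l ^ d * aeval x Q := by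
  rw [aeval_def, aeval_def, eval₂_eq, eval₂_eq, Finset.mul_sum]
  refine Finset.sum_congr rfl fun e he => ?_
  have hdeg : e.degree = d := by
    have := hQ (mem_support_iff.1 he)
    rwa [Finsupp.degree_eq_weight_one]
  have h4 : ∏ i ∈ e.support, (l * x i) ^ e i = l ^ d * ∏ i ∈ e.support, x i ^ e i := by
    simp only [mul_pow]
    rw [Finset.prod_mul_distrib, Finset.prod_pow_eq_pow_sum, ← hdeg]
    rfl
  rw [h4]
  ring

private theorem null_grad_scale {F E τ : Type*} [Field F] [Field E] [Algebra F E]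
    {Q : MvPolynomial τ F} {d : ℕ} (hQ : Q.IsHomogeneous d) (l : E) (x : τ → E) (i : τ) :
    gradAt Q (fun i => l * x i) i = l ^ (d - 1) * gradAt Q x i := by
  unfold gradAt
  exact null_aeval_scale hQ.pderiv l x

/-- the polynomial Jacobian -/
private noncomputable def jacP {F A₁ A₂ τ : Type*} [Field F] [DecidableEq τ]
    {n : ℕ} (G : A₁ ⊕ A₂ → MvPolynomial τ F) (e : A₁ ⊕ Fin (n + 1) ≃ τ)
    (κ : Fin (n + 1) → A₂ ⊕ τ) :
    Matrix (A₁ ⊕ Fin (n + 1)) (A₁ ⊕ Fin (n + 1)) (MvPolynomial τ F) :=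
  Matrix.of fun r j => (Sum.elim (fun a i => pderiv i (G (Sum.inl a)))
    (fun i => Sum.elim (fun b t => pderiv t (G (Sum.inr b))) (fun t => Pi.single t 1) (κ i)) r) (e j)

private theorem null_aeval_det {F E A₁ A₂ τ : Type*} [Field F] [Field E] [Algebra F E]
    [Fintype A₁] [DecidableEq A₁] [DecidableEq τ]
    {n : ℕ} (G : A₁ ⊕ A₂ → MvPolynomial τ F) (e : A₁ ⊕ Fin (n + 1) ≃ τ)
    (κ : Fin (n + 1) → A₂ ⊕ τ) (x : τ → E) :
    aeval x (jacP G e κ).det = (jac G e κ x).det := by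
  rw [AlgHom.map_det]
  congr 1
  ext r j
  simp only [AlgHom.mapMatrix_apply, Matrix.map_apply, jacP, jac, Matrix.of_apply]
  rcases r with a | i
  · rfl
  · simp only [Sum.elim_inr]
    rcases κ i with b | t
    · rfl
    · simp only [Sum.elim_inr]
      by_cases h : e j = t
      · subst h
        simp
      · rw [Pi.single_eq_of_ne h, Pi.single_eq_of_ne h, map_zero]

/-! ### the completion -/

private theorem null_complete {F E A₁ A₂ τ : Type*} [Field F] [Field E] [Algebra F E]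
    [Fintype A₁] [Fintype A₂] [Fintype τ] [DecidableEq A₁] [DecidableEq τ]
    {n : ℕ} (G : A₁ ⊕ A₂ → MvPolynomial τ F) (e : A₁ ⊕ Fin (n + 1) ≃ τ) (x : τ → E)
    (T : Set A₂)
    (hli : LinearIndependent E (fun a : (Set.range Sum.inl ∪ Sum.inr '' T : Set (A₁ ⊕ A₂)) =>
      gradAt (G a.1) x)) :
    ∃ κ : Fin (n + 1) → A₂ ⊕ τ, Function.Injective κ ∧ (∀ b, Sum.inl b ∈ Set.range κ ↔ b ∈ T) ∧
      (jac G e κ x).det ≠ 0 := by
  classical
  -- the family
  let V : (A₁ ⊕ A₂) ⊕ τ → (τ → E) := Sum.elim (fun a => gradAt (G a) x) (fun t => Pi.single t 1)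
  let S : Set (A₁ ⊕ A₂) := Set.range Sum.inl ∪ Sum.inr '' T
  let s : Set ((A₁ ⊕ A₂) ⊕ τ) := Sum.inl '' S
  let t₀ : Set ((A₁ ⊕ A₂) ⊕ τ) := s ∪ Set.range Sum.inr
  have hs : LinearIndepOn E V s := by
    have h1 : LinearIndepOn E (V ∘ Sum.inl) S := hli
    exact h1.image_of_comp Sum.inl V
  obtain ⟨b, hbt, hsb, hspan, hb⟩ := exists_linearIndepOn_extension hs
    (Set.subset_union_left : s ⊆ t₀)
  have hspan' : ⊤ ≤ Submodule.span E (Set.range fun y : b => V y) := by
    rw [← Set.image_eq_range, ← (Pi.basisFun E τ).span_eq, Submodule.span_le]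
    rintro _ ⟨t, rfl⟩
    refine hspan ⟨Sum.inr t, Or.inr ⟨t, rfl⟩, ?_⟩
    simp [V]
  have hcard : b.toFinset.card = Fintype.card τ := by
    rw [Set.toFinset_card, ← Module.finrank_eq_card_basis (Module.Basis.mk hb hspan'),
      Module.finrank_fintype_fun_eq_card]
  let ψ : A₂ ⊕ τ → (A₁ ⊕ A₂) ⊕ τ := Sum.map Sum.inr id
  have hψ : Function.Injective ψ := Function.Injective.sumMap Sum.inr_injective Function.injective_id
  let R : Finset (A₂ ⊕ τ) := Finset.univ.filter fun y => ψ y ∈ b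
  have hA₁ : ∀ a : A₁, Sum.inl (Sum.inl a) ∈ b := fun a => hsb ⟨Sum.inl a, Or.inl ⟨a, rfl⟩, rfl⟩
  have hbR : b.toFinset = (Finset.univ.image fun a : A₁ => (Sum.inl (Sum.inl a) : (A₁ ⊕ A₂) ⊕ τ)) ∪
      R.image ψ := by
    ext y
    simp only [Set.mem_toFinset, Finset.mem_union, Finset.mem_image, Finset.mem_univ, true_and, R,
      Finset.mem_filter]
    constructor
    · intro hy
      rcases y with (a | b') | t
      · exact Or.inl ⟨a, rfl⟩
      · exact Or.inr ⟨Sum.inl b', hy, rfl⟩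
      · exact Or.inr ⟨Sum.inr t, hy, rfl⟩
    · rintro (⟨a, rfl⟩ | ⟨y, hy, rfl⟩)
      · exact hA₁ a
      · exact hy
  have hR : R.card = n + 1 := by
    have h1 : Fintype.card τ = Fintype.card A₁ + (n + 1) := by
      rw [← Fintype.card_congr e, Fintype.card_sum, Fintype.card_fin]
    rw [hbR, Finset.card_union_of_disjoint, Finset.card_image_of_injective _ hψ,
      Finset.card_image_of_injective, Finset.card_univ, h1] at hcard
    · omega
    · exact Sum.inl_injective.comp Sum.inl_injective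
    · rw [Finset.disjoint_left]
      intro y hy hy'
      rw [Finset.mem_image] at hy hy'
      obtain ⟨a, _, rfl⟩ := hy
      obtain ⟨z, _, hz⟩ := hy'
      rcases z with z | z <;> simp [ψ] at hz
  let κ : Fin (n + 1) → A₂ ⊕ τ := fun i => ((R.equivFinOfCardEq hR).symm i).1
  have hκinj : Function.Injective κ :=
    Subtype.val_injective.comp (R.equivFinOfCardEq hR).symm.injective
  have hκmem : ∀ i, κ i ∈ R := fun i => ((R.equivFinOfCardEq hR).symm i).2
  have hκrange : ∀ y, y ∈ R → y ∈ Set.range κ := by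
    intro y hy
    exact ⟨R.equivFinOfCardEq hR ⟨y, hy⟩, by simp [κ]⟩
  refine ⟨κ, hκinj, fun b' => ⟨?_, ?_⟩, ?_⟩
  · rintro ⟨i, hi⟩
    have h1 := hκmem i
    rw [hi] at h1
    have h2 : (Sum.inl (Sum.inr b') : (A₁ ⊕ A₂) ⊕ τ) ∈ b := (Finset.mem_filter.1 h1).2
    rcases hbt h2 with ⟨y, hy, hy2⟩ | ⟨y, hy⟩
    · have hy3 : y = Sum.inr b' := Sum.inl_injective hy2
      subst hy3
      rcases hy with ⟨a, ha⟩ | ⟨z, hz, hz2⟩
      · cases ha
      · exact (Sum.inr_injective hz2) ▸ hz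
    · cases hy
  · intro hb'
    apply hκrange
    exact Finset.mem_filter.2 ⟨Finset.mem_univ _, hsb ⟨Sum.inr b', Or.inr ⟨b', hb', rfl⟩, rfl⟩⟩
  · let φ : A₁ ⊕ Fin (n + 1) → (A₁ ⊕ A₂) ⊕ τ := Sum.elim (fun a => Sum.inl (Sum.inl a)) (fun i => ψ (κ i))
    have hφb : ∀ r, φ r ∈ b := by
      rintro (a | i)
      · exact hA₁ a
      · exact (Finset.mem_filter.1 (hκmem i)).2
    have hφinj : Function.Injective φ := by
      apply Function.Injective.sumElim
      · exact Sum.inl_injective.comp Sum.inl_injective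
      · exact hψ.comp hκinj
      · intro a i h
        rcases hk : κ i with z | z <;> rw [hk] at h <;> simp [ψ] at h
    have hrow : LinearIndependent E (fun r => V (φ r)) :=
      LinearIndependent.comp (v := fun y : b => V y) hb (fun r => ⟨φ r, hφb r⟩)
        (fun r r' h => hφinj (congrArg Subtype.val h))
    have hrow2 : LinearIndependent E (fun r => (LinearEquiv.funCongrLeft E E e) (V (φ r))) :=
      hrow.map' (LinearEquiv.funCongrLeft E E e).toLinearMap (LinearEquiv.ker _)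
    have hjac : jac G e κ x = Matrix.of fun r => (LinearEquiv.funCongrLeft E E e) (V (φ r)) := by
      ext r j
      rcases r with a | i
      · rfl
      · change (Sum.elim (fun b => gradAt (G (Sum.inr b)) x) (fun t => Pi.single t 1) (κ i)) (e j) =
          V (ψ (κ i)) (e j)
        rcases κ i with z | z <;> rfl
    rw [hjac]
    have h3 := (Matrix.linearIndependent_rows_iff_isUnit
      (A := Matrix.of fun r => (LinearEquiv.funCongrLeft E E e) (V (φ r)))).1 hrow2
    exact ((Matrix.isUnit_iff_isUnit_det _).1 h3).ne_zero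

/-! ### evaluation at a place -/

private theorem null_aeval_mem {k F L τ : Type*} [Field k] [Field F] [Field L] [Algebra k L]
    [Algebra F L] (v : Place k L) {z : τ → L} (hz : ∀ i, z i ∈ v.ge 0) {Q : MvPolynomial τ F}
    {B : ℤ} (hQ : ∀ m ∈ Q.support, algebraMap F L (Q.coeff m) ∈ v.ge (-B)) :
    aeval z Q ∈ v.ge (-B) := by
  rw [aeval_def, eval₂_eq]
  refine sum_mem fun m hm => ?_
  have h1 : ∏ i ∈ m.support, z i ^ m i ∈ v.ge 0 := by
    have h2 := v.prod_mem_ge m.support (fun i => z i ^ m i) (fun _ => 0) (fun i _ => by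
      have h3 := v.pow_mem_ge (hz i) (m i)
      rwa [mul_zero] at h3)
    rwa [Finset.sum_const_zero] at h2
  have h4 := v.mul_mem_ge (hQ m hm) h1
  rwa [add_zero] at h4

/-- the equations -/
private def nullSet {F A₁ A₂ τ : Type*} [Field F] [Fintype A₁] [DecidableEq A₁] [DecidableEq τ]
    {n : ℕ} (G : A₁ ⊕ A₂ → MvPolynomial τ F) (e : A₁ ⊕ Fin (n + 1) ≃ τ) (T : Finset A₂) :
    Set (MvPolynomial τ F) :=
  {p | (∃ a : A₁, p = G (Sum.inl a)) ∨ (∃ b ∈ T, p = G (Sum.inr b)) ∨
    ∃ κ : Fin (n + 1) → A₂ ⊕ τ, Function.Injective κ ∧ (∀ b, Sum.inl b ∈ Set.range κ ↔ b ∈ T) ∧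
      p = (jacP G e κ).det}

open Classical in
/-- the local consequence of the Nullstellensatz: outside the poles of finitely many elements of
`F` the divisors have normal crossings, with a uniform estimate at the bad places -/
theorem exists_local_null {k F A₁ A₂ τ : Type*} [Field k] [Field F] [Algebra k F] [FunField k F]
    [CharZero k] [IsAlgClosed k] [Fintype A₁] [Fintype A₂] [Fintype τ] {d : A₁ ⊕ A₂ → ℕ}
    (G : A₁ ⊕ A₂ → MvPolynomial τ F) (hG : ∀ a, (G a).IsHomogeneous (d a))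
    (hd : ∀ a, 1 ≤ d a)
    (hind : ∀ (x : τ → AlgebraicClosure F) (_ : ∃ i, x i ≠ 0) (S : Set (A₁ ⊕ A₂))
      (_ : ∀ a ∈ S, aeval x (G a) = 0),
      LinearIndependent (AlgebraicClosure F) (fun a : S => gradAt (G a.1) x))
    {n : ℕ} (e : A₁ ⊕ Fin (n + 1) ≃ τ) :
    ∃ 𝓑 : Finset F, ∀ (L : Type w) [Field L] [Algebra k L] [Algebra F L] [IsScalarTower k F L]
      (v : Place k L) (f : τ → L) (_ : ∃ i, f i ≠ 0) (_ : ∀ a, aeval f (G (Sum.inl a)) = 0)
      (_ : ∀ b, aeval f (G (Sum.inr b)) ≠ 0) (B : ℤ) (_ : 0 ≤ B)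
      (_ : ∀ β ∈ 𝓑, algebraMap F L β ∈ v.ge (-B)),
      ∃ κ : Fin (n + 1) → A₂ ⊕ τ, Function.Injective κ ∧
        (∀ b, Sum.inl b ∈ Set.range κ ↔
          B < v.ord (aeval f (G (Sum.inr b))) - d (Sum.inr b) * v.minOrd f) ∧
        (jac G e κ f).det ≠ 0 ∧
        v.ord (jac G e κ f).det ≤ (∑ a : A₁, ((d (Sum.inl a) : ℤ) - 1) +
          ∑ i, Sum.elim (fun b => (d (Sum.inr b) : ℤ) - 1) (fun _ => 0) (κ i)) * v.minOrd f + B := by
  have key : ∀ (T : Finset A₂) (i : τ), ∃ (M : ℕ) (c : MvPolynomial τ F →₀ MvPolynomial τ F),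
      (c.support : Set (MvPolynomial τ F)) ⊆ nullSet G e T ∧ (c.sum fun p r => r • p) = X i ^ M := by
    intro T i
    have h1 : (X i : MvPolynomial τ F) ∈ (Ideal.span (nullSet G e T)).radical := by
      rw [← vanishingIdeal_zeroLocus_eq_radical (K := AlgebraicClosure F), mem_vanishingIdeal_iff]
      intro x hx
      rw [aeval_X]
      by_contra hxi
      have hz : ∀ p ∈ nullSet G e T, aeval x p = 0 := fun p hp => hx p (Ideal.subset_span hp)
      obtain ⟨κ, hκ1, hκ2, hκ3⟩ := null_complete G e x (T : Set A₂) (hind x ⟨i, hxi⟩ _ (by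
        rintro _ (⟨a, rfl⟩ | ⟨b, hb, rfl⟩)
        · exact hz _ (Or.inl ⟨a, rfl⟩)
        · exact hz _ (Or.inr (Or.inl ⟨b, hb, rfl⟩))))
      apply hκ3
      rw [← null_aeval_det]
      exact hz _ (Or.inr (Or.inr ⟨κ, hκ1, fun b => (hκ2 b).trans Finset.mem_coe, rfl⟩))
    obtain ⟨M, hM⟩ := h1
    obtain ⟨c, hc1, hc2⟩ := Submodule.mem_span_set.1 hM
    exact ⟨M, c, hc1, hc2⟩
  choose M c hc hsum using key
  refine ⟨Finset.univ.biUnion fun T => Finset.univ.biUnion fun i =>
    (c T i).support.biUnion fun p => (c T i p).support.image fun m => (c T i p).coeff m, ?_⟩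
  intro L _ _ _ _ v f hf0 hfA hfB B hB h𝓑
  set μ := v.minOrd f with hμ
  set w : L := v.unif ^ (-μ) with hw
  have hw0 : w ≠ 0 := zpow_ne_zero _ v.unif_ne_zero
  have hword : v.ord w = -μ := by rw [hw, v.ord_zpow, v.ord_unif, mul_one]
  have hz : ∀ i, w * f i ∈ v.ge 0 := by
    intro i
    have h1 := v.mul_mem_ge (v.mem_ge_ord w) (v.mem_ge_minOrd f i)
    rwa [hword, neg_add_cancel] at h1
  obtain ⟨i₀, hi₀, hi₀2⟩ := v.exists_minOrd f hf0
  let T : Finset A₂ := Finset.univ.filter fun b =>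
    B < v.ord (aeval f (G (Sum.inr b))) - d (Sum.inr b) * μ
  have hT : ∀ b, b ∈ T ↔ B < v.ord (aeval f (G (Sum.inr b))) - d (Sum.inr b) * μ := by
    intro b
    simp [T]
  -- a minor of small order at the scaled point
  have hex : ∃ κ : Fin (n + 1) → A₂ ⊕ τ, Function.Injective κ ∧
      (∀ b, Sum.inl b ∈ Set.range κ ↔ b ∈ T) ∧
      (jac G e κ fun i => w * f i).det ∉ v.ge (B + 1) := by
    by_contra hcon
    push Not at hcon
    have h1 : aeval (fun i => w * f i) (X i₀ ^ M T i₀ : MvPolynomial τ F) ∈ v.ge 1 := by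
      rw [← hsum T i₀, Finsupp.sum, map_sum]
      refine sum_mem fun p hp => ?_
      rw [smul_eq_mul, map_mul]
      have h2 : aeval (fun i => w * f i) (c T i₀ p) ∈ v.ge (-B) := by
        apply null_aeval_mem v hz
        intro m hm
        apply h𝓑
        rw [Finset.mem_biUnion]
        refine ⟨T, Finset.mem_univ _, ?_⟩
        rw [Finset.mem_biUnion]
        refine ⟨i₀, Finset.mem_univ _, ?_⟩
        rw [Finset.mem_biUnion]
        exact ⟨p, hp, Finset.mem_image.2 ⟨m, hm, rfl⟩⟩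
      have h3 : aeval (fun i => w * f i) p ∈ v.ge (B + 1) := by
        rcases hc T i₀ hp with ⟨a, rfl⟩ | ⟨b, hb, rfl⟩ | ⟨κ, hκ1, hκ2, rfl⟩
        · rw [null_aeval_scale (hG _), hfA a, mul_zero]
          exact zero_mem _
        · rw [null_aeval_scale (hG _)]
          apply v.mem_ge_of_le
          rw [v.ord_mul _ _ (pow_ne_zero _ hw0) (hfB b), v.ord_pow, hword]
          have h4 := (hT b).1 hb
          have h5 : (d (Sum.inr b) : ℤ) * -μ + v.ord (aeval f (G (Sum.inr b))) =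
            v.ord (aeval f (G (Sum.inr b))) - d (Sum.inr b) * μ := by ring
          rw [h5]
          omega
        · rw [null_aeval_det]
          exact hcon κ hκ1 hκ2
      have h4 := v.mul_mem_ge h2 h3
      have h5 : -B + (B + 1) = 1 := by ring
      rwa [h5] at h4
    rw [map_pow, aeval_X] at h1
    have hne1 : w * f i₀ ≠ 0 := mul_ne_zero hw0 hi₀
    have h2 := v.le_ord_of_mem h1 (pow_ne_zero _ hne1)
    rw [v.ord_pow, v.ord_mul _ _ hw0 hi₀, hword, ← hi₀2] at h2
    rw [← hμ, neg_add_cancel, mul_zero] at h2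
    omega
  obtain ⟨κ, hκ1, hκ2, hκ3⟩ := hex
  -- the scaling of the rows
  let g : A₁ ⊕ Fin (n + 1) → ℕ := Sum.elim (fun a => d (Sum.inl a) - 1)
    (fun i => Sum.elim (fun b => d (Sum.inr b) - 1) (fun _ => 0) (κ i))
  have hscale : (jac G e κ fun i => w * f i).det = (∏ r, w ^ g r) * (jac G e κ f).det := by
    rw [← Matrix.det_mul_column]
    congr 1
    ext r j
    rcases r with a | i
    · exact null_grad_scale (hG _) w f _
    · simp only [jac, Matrix.of_apply, Sum.elim_inr, g]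
      rcases κ i with b | t
      · exact null_grad_scale (hG _) w f _
      · simp
  have hdet0 : (jac G e κ fun i => w * f i).det ≠ 0 := fun h => hκ3 (h ▸ zero_mem _)
  have hdet1 : (jac G e κ f).det ≠ 0 := fun h => hdet0 (by rw [hscale, h, mul_zero])
  have hprod0 : (∏ r, w ^ g r) ≠ 0 := Finset.prod_ne_zero_iff.2 fun r _ => pow_ne_zero _ hw0
  have hord : v.ord (jac G e κ fun i => w * f i).det ≤ B := by
    by_contra hcon
    push Not at hcon
    exact hκ3 (v.mem_ge_of_le (by omega))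
  refine ⟨κ, hκ1, fun b => (hκ2 b).trans (hT b), hdet1, ?_⟩
  rw [hscale, v.ord_mul _ _ hprod0 hdet1, v.ord_prod _ _ (fun r _ => pow_ne_zero _ hw0)] at hord
  have hsumg : ∑ r, v.ord (w ^ g r) = -((∑ a : A₁, ((d (Sum.inl a) : ℤ) - 1) +
      ∑ i, Sum.elim (fun b => (d (Sum.inr b) : ℤ) - 1) (fun _ => 0) (κ i)) * μ) := by
    rw [Fintype.sum_sum_type, ← neg_mul, neg_add, add_mul, ← Finset.sum_neg_distrib,
      ← Finset.sum_neg_distrib, Finset.sum_mul, Finset.sum_mul]
    congr 1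
    · refine Finset.sum_congr rfl fun a _ => ?_
      rw [v.ord_pow, hword]
      have h1 := hd (Sum.inl a)
      simp only [g, Sum.elim_inl]
      push_cast [Nat.cast_sub h1]
      ring
    · refine Finset.sum_congr rfl fun i _ => ?_
      rw [v.ord_pow, hword]
      simp only [g, Sum.elim_inr]
      rcases κ i with b | t
      · have h1 := hd (Sum.inr b)
        simp only [Sum.elim_inl]
        push_cast [Nat.cast_sub h1]
        ring
      · simp
  rw [hsumg] at hord
  linarith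

end Pool.Agent.VG
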