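import Pool.Agent.VG.Frame
import Pool.Agent.VG.Mu
import Pool.Agent.VG.LDet
import Pool.Agent.VG.Null

/-!
# The local inequality

`MP_4dacf8_ag`, Q1 for very general (log) complete intersections.
-/

set_option linter.unusedSectionVars false

namespace Pool.Agent.VG

open MvPolynomial Pool.Agent.Helper11

/-- Euler's identity at a point -/
theorem euler_at {F L τ : Type*} [Field F] [Field L] [Algebra F L] [Fintype τ] {d : ℕ}
    {Q : MvPolynomial τ F} (hQ : Q.IsHomogeneous d) (f : τ → L) :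
    ∑ t, gradAt Q f t * f t = d * aeval f Q := by
  have h1 := congrArg (aeval f) hQ.sum_X_mul_pderiv
  rw [map_sum, map_nsmul, nsmul_eq_mul] at h1
  rw [← h1]
  refine Finset.sum_congr rfl fun t _ => ?_
  rw [map_mul, aeval_X, mul_comm]
  rfl

section

variable {k F L A₁ A₂ τ : Type*} [Field k] [Field F] [Field L] [Algebra k F]
    [Algebra k L] [Algebra F L] [IsScalarTower k F L] [CharZero k] [IsAlgClosed k] [FunField k L]
    [Fintype A₁] [Fintype A₂] [Fintype τ] [DecidableEq τ] {d : A₁ ⊕ A₂ → ℕ}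
    (G : A₁ ⊕ A₂ → MvPolynomial τ F)

/-- the excess of the order of `G b` at the point `f` -/
noncomputable def exc (d : A₁ ⊕ A₂ → ℕ) (v : Place k L) (f : τ → L) (b : A₂) : ℤ :=
  v.ord (aeval f (G (Sum.inr b))) - d (Sum.inr b) * v.minOrd f

open Classical in
theorem sum_exc_le {n : ℕ} (κ : Fin n → A₂ ⊕ τ) (hκ : Function.Injective κ) (m : A₂ → ℤ) (B : ℤ)
    (hB : 0 ≤ B) (h : ∀ b, Sum.inl b ∈ Set.range κ ↔ B < m b) :
    ∑ b, m b - Fintype.card A₂ * B ≤ ∑ i, Sum.elim m (fun _ => 0) (κ i) := by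
  have h1 : ∑ i, Sum.elim m (fun _ => (0 : ℤ)) (κ i) =
      ∑ x : A₂ ⊕ τ, if x ∈ Set.range κ then Sum.elim m (fun _ => 0) x else 0 := by
    rw [← Finset.sum_filter, ← Finset.sum_image (f := Sum.elim m (fun _ => (0 : ℤ))) (g := κ)
      (s := Finset.univ) (fun x _ y _ hxy => hκ hxy)]
    refine Finset.sum_congr ?_ fun _ _ => rfl
    ext x
    simp
  rw [h1, Fintype.sum_sum_type]
  have h2 : ∀ t : τ, (if (Sum.inr t : A₂ ⊕ τ) ∈ Set.range κ then
      Sum.elim m (fun _ => (0 : ℤ)) (Sum.inr t) else 0) = 0 := by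
    intro t
    split_ifs <;> rfl
  rw [Finset.sum_congr rfl fun t _ => h2 t, Finset.sum_const_zero, add_zero]
  have h3 : (Fintype.card A₂ : ℤ) * B = ∑ _b : A₂, B := by
    rw [Finset.sum_const, Finset.card_univ, nsmul_eq_mul]
  rw [h3, ← Finset.sum_sub_distrib]
  refine Finset.sum_le_sum fun b _ => ?_
  split_ifs with h4
  · rw [Sum.elim_inl]
    omega
  · have h5 := (not_congr (h b)).1 h4
    omega

open Classical in
/-- the local inequality -/
theorem local_bound (hG : ∀ a, (G a).IsHomogeneous (d a)) {n : ℕ} (e : A₁ ⊕ Fin (n + 1) ≃ τ)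
    (v : Place k L) {s : L} (hs : Transcendental k s)
    (δ : CoeffIdx τ d → Derivation ℤ L L)
    (hδk : ∀ p (c : k), ∃ c' : k, δ p (algebraMap k L c) = algebraMap k L c')
    (hδs : ∀ p, δ p s = 0)
    (f : τ → L) (hf : ∃ i, f i ≠ 0) (h2 : ∀ b, aeval f (G (Sum.inr b)) ≠ 0)
    (c : Fin n → CoeffIdx τ d → L) (w : Fin n → τ → L) (ε : Fin n → A₂ → L)
    (hV : ∀ l b, ∑ i, gradAt (G (Sum.inr b)) f i * (w l i + ∑ p, c l p * δ p (f i)) =
        ∑ p, c l p * δ p (aeval f (G (Sum.inr b))) + ε l b * aeval f (G (Sum.inr b)))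
    {μ : L} (hμ0 : μ ≠ 0)
    (hμ : ∀ W : Fin (n + 1) → τ → L,
      (Matrix.of fun (r j : A₁ ⊕ Fin (n + 1)) =>
        (Sum.elim (fun a => gradAt (G (Sum.inl a)) f) W r) (e j)).det * μ =
        (Matrix.of fun i j : Fin (n + 1) => ∑ t, W i t *
          (Fin.cons f (fun l i => w l i + ∑ p, c l p * δ p (f i)) : Fin (n + 1) → τ → L) j t).det)
    {B : ℤ} (hB : 0 ≤ B)
    (hc : ∀ l p, c l p ∈ v.ge (v.minOrd f - B))
    (hw : ∀ l i, w l i ∈ v.ge (v.minOrd f + (v.minOrd f - B)))
    (hε : ∀ l b, ε l b ∈ v.ge (v.minOrd f - B))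
    (κ : Fin (n + 1) → A₂ ⊕ τ) (hκ : Function.Injective κ)
    (hκB : ∀ b, Sum.inl b ∈ Set.range κ ↔ B < exc G d v f b)
    (hdet : (jac G e κ f).det ≠ 0)
    (hjac : v.ord (jac G e κ f).det ≤ (∑ a : A₁, ((d (Sum.inl a) : ℤ) - 1) +
          ∑ i, Sum.elim (fun b => (d (Sum.inr b) : ℤ) - 1) (fun _ => 0) (κ i)) * v.minOrd f + B) :
    (2 * n + 1 - ∑ a : A₁, ((d (Sum.inl a) : ℤ) - 1)) * v.minOrd f + ∑ b, exc G d v f b -
      (if ∃ b, B < exc G d v f b then 1 else 0) - v.ord (v.dv s) - 2 * max 0 (-v.ord s) -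
      (n + 1 + Fintype.card A₂) * B ≤ v.ord μ := by
  set ν := v.minOrd f with hν
  set W : Fin (n + 1) → τ → L := fun i =>
    Sum.elim (fun b => gradAt (G (Sum.inr b)) f) (fun t => Pi.single t 1) (κ i) with hW
  have h3 := hμ W
  have h4 : (Matrix.of fun (r j : A₁ ⊕ Fin (n + 1)) =>
        (Sum.elim (fun a => gradAt (G (Sum.inl a)) f) W r) (e j)) = jac G e κ f := by
    ext r j
    rcases r with r | r
    · rfl
    · rfl
  rw [h4] at h3
  set g : Fin (n + 1) → L := fun i => Sum.elim (fun b => aeval f (G (Sum.inr b))) f (κ i) with hg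
  set dg : Fin (n + 1) → ℕ := fun i => Sum.elim (fun b => d (Sum.inr b)) (fun _ => 1) (κ i)
    with hdg
  set h : Fin n → Fin (n + 1) → L := fun l i =>
    Sum.elim (fun b => ε l b * aeval f (G (Sum.inr b))) (fun t => w l t) (κ i) with hh
  set r : Fin (n + 1) → ℤ := fun i =>
    Sum.elim (fun b => v.ord (aeval f (G (Sum.inr b)))) (fun _ => ν) (κ i) with hr
  set θ : ℤ := if ∃ b, B < exc G d v f b then 1 else 0 with hθ
  have h5 : (Matrix.of fun i j : Fin (n + 1) => ∑ t, W i t *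
      (Fin.cons f (fun l i => w l i + ∑ p, c l p * δ p (f i)) : Fin (n + 1) → τ → L) j t) =
      (Matrix.of fun i j : Fin (n + 1) => Fin.cases (motive := fun _ => L) ((dg i : L) * g i)
        (fun l => ∑ p, c l p * δ p (g i) + h l i) j) := by
    ext i j
    simp only [Matrix.of_apply]
    refine Fin.cases ?_ (fun l => ?_) j
    · simp only [Fin.cons_zero, Fin.cases_zero, hW, hdg, hg]
      rcases κ i with b | t
      · simp only [Sum.elim_inl]
        exact euler_at (hG (Sum.inr b)) f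
      · simp only [Sum.elim_inr, Nat.cast_one, one_mul]
        rw [sum_pi_single_mul t (1 : L) f, one_mul]
    · simp only [Fin.cons_succ, Fin.cases_succ, hW, hh, hg]
      rcases κ i with b | t
      · simp only [Sum.elim_inl]
        exact hV l b
      · simp only [Sum.elim_inr]
        rw [sum_pi_single_mul t (1 : L) (fun i => w l i + ∑ p, c l p * δ p (f i)), one_mul,
          add_comm]
  rw [h5] at h3
  have hbig : ∀ b, Sum.inl b ∈ Set.range κ → B < exc G d v f b := fun b hb => (hκB b).1 hb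
  have h6 := det_mem_ge v hs δ hδk hδs c g dg h ν B r (by
      intro i
      simp only [hdg, hr]
      rcases hi : κ i with b | t
      · simp only [Sum.elim_inl]
        have h7 := hbig b ⟨i, hi⟩
        unfold exc at h7
        rw [← hν] at h7
        omega
      · simp only [Sum.elim_inr, Nat.cast_one, one_mul]
        exact le_refl _) (by
      intro i
      simp only [hg, hr]
      rcases κ i with b | t
      · exact v.mem_ge_ord _
      · exact v.mem_ge_minOrd f t) hc (by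
      intro l i
      simp only [hh, hr]
      rcases κ i with b | t
      · simp only [Sum.elim_inl]
        rw [mul_comm]
        exact v.mul_mem_ge (v.mem_ge_ord _) (hε l b)
      · exact hw l t) θ (by rw [hθ]; split_ifs <;> omega) (by
      intro i
      simp only [hdg, hr]
      rcases hi : κ i with b | t
      · right
        rw [hθ, if_pos ⟨b, hbig b ⟨i, hi⟩⟩]
      · left
        simp only [Sum.elim_inr, Nat.cast_one, one_mul])
  rw [← h3] at h6
  have h7 := v.le_ord_of_mem h6 (mul_ne_zero hdet hμ0)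
  rw [v.ord_mul _ _ hdet hμ0] at h7
  have h8 := sum_exc_le κ hκ (exc G d v f) B hB hκB
  have h9 : ∑ i, r i - (∑ i, Sum.elim (fun b => (d (Sum.inr b) : ℤ) - 1) (fun _ => 0) (κ i)) * ν =
      (n + 1) * ν + ∑ i, Sum.elim (exc G d v f) (fun _ => 0) (κ i) := by
    rw [Finset.sum_mul, ← Finset.sum_sub_distrib]
    have h10 : ((n : ℤ) + 1) * ν = ∑ _i : Fin (n + 1), ν := by
      rw [Finset.sum_const, Finset.card_univ, Fintype.card_fin, nsmul_eq_mul]
      push_cast
      ring
    rw [h10, ← Finset.sum_add_distrib]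
    refine Finset.sum_congr rfl fun i _ => ?_
    simp only [hr]
    rcases κ i with b | t
    · simp only [Sum.elim_inl, exc]
      rw [← hν]
      ring
    · simp only [Sum.elim_inr]
      ring
  have h11 : (∑ a : A₁, ((d (Sum.inl a) : ℤ) - 1) +
          ∑ i, Sum.elim (fun b => (d (Sum.inr b) : ℤ) - 1) (fun _ => 0) (κ i)) * ν =
      (∑ a : A₁, ((d (Sum.inl a) : ℤ) - 1)) * ν +
        (∑ i, Sum.elim (fun b => (d (Sum.inr b) : ℤ) - 1) (fun _ => 0) (κ i)) * ν := by ring
  rw [h11] at hjac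
  have h12 : (2 * (n : ℤ) + 1 - ∑ a : A₁, ((d (Sum.inl a) : ℤ) - 1)) * ν =
      (n + 1) * ν + n * ν - (∑ a : A₁, ((d (Sum.inl a) : ℤ) - 1)) * ν := by ring
  have h13 : ((n : ℤ) + 1 + Fintype.card A₂) * B = n * B + B + Fintype.card A₂ * B := by ring
  have h14 : (n : ℤ) * (ν - B) = n * ν - n * B := by ring
  rw [h14] at h7
  rw [h12, h13]
  linarith

end

end Pool.Agent.VG
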