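import Pool.Agent.VG.Global

/-!
# Q1 for very general complete intersections

`MP_4dacf8_ag`.
-/

set_option linter.unusedSectionVars false

namespace Pool.Agent.VG

open MvPolynomial Pool.Agent.Helper11

universe w

section

variable {k F L A₁ A₂ τ : Type*} [Field k] [Field F] [Field L] [Algebra k F]
    [Algebra k L] [Algebra F L] [IsScalarTower k F L] [CharZero k] [IsAlgClosed k]
    [FunField k F] [FunField k L] [FiniteDimensional F L]
    [Fintype A₁] [Fintype A₂] [Fintype τ] {d : A₁ ⊕ A₂ → ℕ}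
    (G : A₁ ⊕ A₂ → MvPolynomial τ F)

open Classical in
/-- summation of the local inequalities -/
theorem sum_local {n : ℕ} {s : F} (hs : Transcendental k s) (f : τ → L) {μ : L}
    (𝓑 : Finset F) (h : ∀ v : Place k L,
      (2 * n + 1 - ∑ a : A₁, ((d (Sum.inl a) : ℤ) - 1)) * v.minOrd f + ∑ b, exc G d v f b -
      (if ∃ b, poleSum 𝓑 v < exc G d v f b then 1 else 0) - v.ord (v.dv (algebraMap F L s)) -
      2 * max 0 (-v.ord (algebraMap F L s)) -
      (n + 1 + Fintype.card A₂) * poleSum 𝓑 v ≤ v.ord μ)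
    (hM : ∀ (v : Place k L) b, poleSum 𝓑 v < exc G d v f b →
      Meets v (d (Sum.inr b)) (G (Sum.inr b)) f) :
    (∑ a, (d a : ℤ) - Fintype.card A₁ - 2 * n - 1) * htP k f ≤ chi k L +
      ({v : Place k L | ∃ b, Meets v (d (Sum.inr b)) (G (Sum.inr b)) f}.ncard : ℤ) +
      (2 * ht k s + (n + 1 + Fintype.card A₂) * ∑ β ∈ 𝓑, ht k β) * Module.finrank F L := by
  have hMfin' := finite_meets (k := k) (L := L) (d := d) G f
  obtain ⟨M, hMdef⟩ : ∃ M : Set (Place k L),
    M = {v | ∃ b, Meets v (d (Sum.inr b)) (G (Sum.inr b)) f} := ⟨_, rfl⟩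
  rw [← hMdef] at hMfin' ⊢
  have hMfin : M.Finite := hMfin'
  have hsL := transcendental_algebraMap (L := L) hs
  set S₁ : ℤ := ∑ a : A₁, ((d (Sum.inl a) : ℤ) - 1) with hS₁
  have f1 : {v : Place k L | (2 * n + 1 - S₁) * v.minOrd f ≠ 0}.Finite :=
    supp_const_mul _ (supp_minOrd f)
  have f2 : {v : Place k L | ∑ b, exc G d v f b ≠ 0}.Finite :=
    supp_sum Finset.univ (fun b (v : Place k L) => exc G d v f b) fun b _ => supp_exc G f b
  have f3 : {v : Place k L | (if v ∈ M then (1 : ℤ) else 0) ≠ 0}.Finite := supp_ind hMfin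
  have f4 : {v : Place k L | v.ord (v.dv (algebraMap F L s)) ≠ 0}.Finite :=
    finite_ord_dv_ne_zero hsL
  have f5 : {v : Place k L | 2 * max 0 (-v.ord (algebraMap F L s)) ≠ 0}.Finite :=
    supp_const_mul _ (supp_negpart _)
  have f6 : {v : Place k L | ((n : ℤ) + 1 + Fintype.card A₂) * poleSum 𝓑 v ≠ 0}.Finite :=
    supp_const_mul _ (supp_poleSum 𝓑)
  have f12 := supp_add f1 f2
  have f123 := supp_sub f12 f3
  have f1234 := supp_sub f123 f4
  have f12345 := supp_sub f1234 f5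
  have f123456 := supp_sub f12345 f6
  have key := fs_mono f123456 (supp_ord μ) (fun v => by
    have h1 := h v
    have h2 : (if ∃ b, poleSum 𝓑 v < exc G d v f b then (1 : ℤ) else 0) ≤
        (if v ∈ M then (1 : ℤ) else 0) := by
      split_ifs with h3 h4 h4
      · exact le_refl _
      · exfalso
        obtain ⟨b, hb⟩ := h3
        exact h4 (by rw [hMdef]; exact ⟨b, hM v b hb⟩)
      · omega
      · exact le_refl _
    linarith)
  rw [finsum_ord, fs_sub f12345 f6, fs_sub f1234 f5, fs_sub f123 f4, fs_sub f12 f3, fs_add f1 f2,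
    fs_const_mul, fs_const_mul, fs_const_mul, fs_ind hMfin, finsum_ord_dv hsL, finsum_poleSum,
    fs_sum Finset.univ (fun b (v : Place k L) => exc G d v f b) fun b _ => supp_exc G f b,
    Finset.sum_congr rfl fun b _ => finsum_exc (k := k) G f b, ← Finset.sum_mul] at key
  have h1 : ∑ᶠ v : Place k L, v.minOrd f = -htP k f := by
    unfold htP
    rw [fs_neg, neg_neg]
  have h2 : ∑ᶠ v : Place k L, max 0 (-v.ord (algebraMap F L s)) =
      (Module.finrank F L : ℤ) * ht k s := by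
    rw [← ht_ext (L := L) s]
    rfl
  rw [h1, h2] at key
  have h3 : ∑ a, (d a : ℤ) = S₁ + Fintype.card A₁ + ∑ b : A₂, (d (Sum.inr b) : ℤ) := by
    rw [Fintype.sum_sum_type, hS₁, Finset.sum_sub_distrib, Finset.sum_const, Finset.card_univ,
      nsmul_eq_mul, mul_one]
    ring
  rw [h3]
  nlinarith [key]

end

open Classical in
/-- the derivations dual to the coefficients of the forms -/
theorem exists_derSys {k₀ k F E α τ : Type*} [Field k₀] [Field k] [Field F] [Field E] [CharZero k]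
    [Algebra k₀ k] [Algebra k F] [Algebra k₀ F] [IsScalarTower k₀ k F] [Algebra k E] [Algebra F E]
    [IsScalarTower k F E] {d : α → ℕ} (s : F) (hs : Transcendental k s)
    (G₀ : α → MvPolynomial τ F)
    (hG₀s : ∀ a m, IsAlgebraic (IntermediateField.adjoin k₀ {s}) ((G₀ a).coeff m))
    (P : α → MvPolynomial τ k) (hP : GenericForms k₀ d P)
    (G : α → MvPolynomial τ F) (hG : ∀ a, G a = G₀ a + map (algebraMap k F) (P a)) :
    ∃ δ : CoeffIdx τ d → Derivation ℤ E E,
      (∀ p (c : k), ∃ c' : k, δ p (algebraMap k E c) = algebraMap k E c') ∧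
      (∀ p, δ p (algebraMap F E s) = 0) ∧
      (∀ p a (m : Mono τ (d a)), δ p (algebraMap F E ((G a).coeff m.1)) =
        if p = ⟨a, m⟩ then 1 else 0) := by
  obtain ⟨δ, h1, h2, h3, h4⟩ := exists_derivations (E := E) hP s hs
  refine ⟨δ, h2, h3, fun p a m => ?_⟩
  rw [hG a, coeff_add, coeff_map, map_add, map_add, h4 p _ (hG₀s a m.1), zero_add,
    ← IsScalarTower.algebraMap_apply]
  exact h1 p ⟨a, m⟩

open Classical in
/-- **Q1 for very general complete intersections**, general index types -/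
theorem main_bound {k₀ k F A₁ A₂ τ : Type*} [Field k₀] [Field k] [Field F] [CharZero k]
    [IsAlgClosed k] [Algebra k₀ k] [Algebra k F] [Algebra k₀ F] [IsScalarTower k₀ k F]
    [FunField k F] [Fintype A₁] [Fintype A₂] [Fintype τ] {d : A₁ ⊕ A₂ → ℕ}
    (hd : ∀ a, 1 ≤ d a) (s : F) (hs : Transcendental k s)
    (G₀ : A₁ ⊕ A₂ → MvPolynomial τ F) (hG₀ : ∀ a, (G₀ a).IsHomogeneous (d a))
    (hG₀s : ∀ a m, IsAlgebraic (IntermediateField.adjoin k₀ {s}) ((G₀ a).coeff m))
    (P : A₁ ⊕ A₂ → MvPolynomial τ k) (hP : GenericForms k₀ d P)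
    (G : A₁ ⊕ A₂ → MvPolynomial τ F) (hG : ∀ a, G a = G₀ a + map (algebraMap k F) (P a))
    {n : ℕ} (e : A₁ ⊕ Fin (n + 1) ≃ τ) :
    ∃ C : ℤ, ∀ (L : Type w) [Field L] [Algebra k L] [Algebra F L] [IsScalarTower k F L]
      [FiniteDimensional F L] (f : τ → L), (∃ i, f i ≠ 0) →
      (∀ a, aeval f (G (Sum.inl a)) = 0) → (∀ b, aeval f (G (Sum.inr b)) ≠ 0) →
      (∑ a, (d a : ℤ) - Fintype.card A₁ - 2 * n - 1) * htP k f ≤ chi k L +
        ({v : Place k L | ∃ b, Meets v (d (Sum.inr b)) (G (Sum.inr b)) f}.ncard : ℤ) +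
        C * Module.finrank F L := by
  have hGhom : ∀ a, (G a).IsHomogeneous (d a) := by
    intro a
    rw [hG a]
    exact (hG₀ a).add ((hP.homogeneous a).map _)
  obtain ⟨δ', _, _, hδ'⟩ := exists_derSys (E := AlgebraicClosure F) s hs G₀ hG₀s P hP G hG
  have hind : ∀ (x : τ → AlgebraicClosure F) (_ : ∃ i, x i ≠ 0) (S : Set (A₁ ⊕ A₂))
      (_ : ∀ a ∈ S, aeval x (G a) = 0),
      LinearIndependent (AlgebraicClosure F) (fun a : S => gradAt (G a.1) x) := by
    intro x hx S hS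
    exact linearIndependent_grad G hGhom δ' (fun p a m => (hδ' p a m).trans (by congr)) x hx S hS
  obtain ⟨𝓑, h𝓑⟩ := exists_local_null.{w} (k := k) G hGhom hd hind e
  set 𝓒 : Finset F := Finset.univ.biUnion fun a : A₁ ⊕ A₂ => (G a).support.image fun m =>
    (G a).coeff m with h𝓒
  set 𝓐 : Finset F := 𝓑 ∪ 𝓒 ∪ 𝓒.image (fun x => x⁻¹) with h𝓐
  refine ⟨2 * ht k s + (n + 1 + Fintype.card A₂) * ∑ β ∈ 𝓐, ht k β, ?_⟩
  intro L _ _ _ _ _ f hf h1 h2
  have hFL : FunField k L := FunField.of_finite (F := F)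
  -- normalization
  obtain ⟨i₀, hi₀⟩ := hf
  set f' : τ → L := fun i => (f i₀)⁻¹ * f i with hf'
  have hinv : (f i₀)⁻¹ ≠ 0 := inv_ne_zero hi₀
  have hf'1 : f' i₀ = 1 := inv_mul_cancel₀ hi₀
  have hf'0 : ∃ i, f' i ≠ 0 := ⟨i₀, by rw [hf'1]; exact one_ne_zero⟩
  have h1' : ∀ a, aeval f' (G (Sum.inl a)) = 0 := by
    intro a
    rw [hf', aeval_scale' (hGhom _), h1 a, mul_zero]
  have h2' : ∀ b, aeval f' (G (Sum.inr b)) ≠ 0 := by
    intro b
    rw [hf', aeval_scale' (hGhom _)]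
    exact mul_ne_zero (pow_ne_zero _ hinv) (h2 b)
  have hht : htP k f' = htP k f := htP_mul f ⟨i₀, hi₀⟩ hinv
  have hmeets : {v : Place k L | ∃ b, Meets v (d (Sum.inr b)) (G (Sum.inr b)) f} =
      {v : Place k L | ∃ b, Meets v (d (Sum.inr b)) (G (Sum.inr b)) f'} := by
    ext v
    exact exists_congr fun b => (meets_scale v (hGhom _) ⟨i₀, hi₀⟩ (h2 b) hinv).symm
  rw [hmeets, ← hht]
  -- the frame
  obtain ⟨δ, hδk, hδs, hδ⟩ := exists_derSys (E := L) s hs G₀ hG₀s P hP G hG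
  obtain ⟨c, w, ε, hV1, hV2, hli, hbd⟩ := exists_frame (k := k) G hGhom hd e δ
    (fun p a m => (hδ p a m).trans (by congr)) f' hf'0 h1' h2'
  have hDli : LinearIndependent L (fun a : A₁ => gradAt (G (Sum.inl a)) f') := by
    have h3 := linearIndependent_grad G hGhom δ (fun p a m => (hδ p a m).trans (by congr)) f' hf'0
      (Set.range Sum.inl) (by rintro _ ⟨a, rfl⟩; exact h1' a)
    exact h3.comp (fun a : A₁ => (⟨Sum.inl a, ⟨a, rfl⟩⟩ : Set.range (Sum.inl : A₁ → A₁ ⊕ A₂)))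
      (fun a b hab => Sum.inl_injective (congrArg Subtype.val hab))
  obtain ⟨μ, hμ0, hμ⟩ := exists_mu e (fun a : A₁ => gradAt (G (Sum.inl a)) f') hDli _ hli (by
    intro a j
    refine Fin.cases ?_ (fun l => ?_) j
    · rw [Fin.cons_zero, euler_at (hGhom _), h1' a, mul_zero]
    · rw [Fin.cons_succ]
      exact hV1 l a)
  have hmemA : ∀ (v : Place k L) (a : A₁ ⊕ A₂) (m : τ →₀ ℕ),
      algebraMap F L ((G a).coeff m) ∈ v.ge (-poleSum 𝓐 v) := by
    intro v a m
    by_cases hm : m ∈ (G a).support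
    · apply mem_ge_poleSum
      rw [h𝓐, h𝓒]
      apply Finset.mem_union_left
      apply Finset.mem_union_right
      rw [Finset.mem_biUnion]
      exact ⟨a, Finset.mem_univ _, Finset.mem_image_of_mem _ hm⟩
    · rw [notMem_support_iff.1 hm, map_zero]
      exact zero_mem _
  refine sum_local G hs f' (μ := μ) 𝓐 (fun v => ?_) (fun v b hb => ?_)
  · have hν : v.minOrd f' ≤ 0 := by
      have h3 := v.minOrd_le f' (i := i₀) (by rw [hf'1]; exact one_ne_zero)
      rwa [hf'1, v.ord_one] at h3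
    obtain ⟨hc, hw, hε⟩ := hbd v (poleSum 𝓐 v) (v.minOrd f') (poleSum_nonneg _ _) hν (hmemA v)
      (fun i => v.mem_ge_minOrd f' i)
    obtain ⟨κ, hκ, hκB, hdet, hjac⟩ := h𝓑 L v f' hf'0 h1' h2' (poleSum 𝓐 v) (poleSum_nonneg _ _)
      (fun β hβ => mem_ge_poleSum v (Finset.mem_union_left _ (Finset.mem_union_left _ hβ)))
    exact local_bound G hGhom e v (transcendental_algebraMap hs) δ hδk hδs f' hf'0 h2' c w ε hV2
      hμ0 hμ (poleSum_nonneg _ _) hc hw hε κ hκ hκB hdet hjac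
  · unfold Meets
    have hne : (G (Sum.inr b)).support.Nonempty := by
      rw [Finset.nonempty_iff_ne_empty]
      intro h0
      rw [MvPolynomial.support_eq_empty] at h0
      exact h2' b (by rw [h0, map_zero])
    obtain ⟨m, hm⟩ := hne
    have h3 : (coeffs L (G (Sum.inr b))) ⟨m, hm⟩ ≠ 0 := by
      unfold coeffs
      rw [Ne, map_eq_zero]
      exact mem_support_iff.1 hm
    have h4 := v.minOrd_le (coeffs L (G (Sum.inr b))) h3
    have h5 : ((G (Sum.inr b)).coeff m)⁻¹ ∈ 𝓐 := by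
      rw [h𝓐, h𝓒]
      apply Finset.mem_union_right
      refine Finset.mem_image_of_mem (fun x => x⁻¹) ?_
      rw [Finset.mem_biUnion]
      exact ⟨Sum.inr b, Finset.mem_univ _, Finset.mem_image_of_mem _ hm⟩
    have h6 := neg_ord_le_poleSum v h5
    rw [map_inv₀, v.ord_inv, neg_neg] at h6
    have h7 : v.ord (coeffs L (G (Sum.inr b)) ⟨m, hm⟩) =
        v.ord (algebraMap F L ((G (Sum.inr b)).coeff m)) := rfl
    unfold exc at hb
    omega

end Pool.Agent.VG
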